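import Mathlib.GroupTheory.SpecificGroups.Cyclic
import Mathlib.GroupTheory.Perm.Basic
import Mathlib.Order.WellFounded
import Mathlib.Algebra.BigOperators.Field
import Mathlib.Data.Real.Basic
import Mathlib.Tactic

/-!
# Artin's relation between the permutation characters of a finite group

The trivial character is a linear combination of the characters induced from the trivial characters of
the cyclic subgroups; counting in transitive permutation representations.
-/

set_option autoImplicit false
set_option linter.unusedSectionVars false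

namespace Pool.Agent.Q12.ST.Artin

open Finset

section sub

variable (G : Type) [Group G] [Finite G]

open Classical in
/-- one step of the recursion -/
noncomputable def step [Fintype (Subgroup G)] (t : Subgroup G → ℝ) (B : Subgroup G)
    (rec : ∀ C : Subgroup G, C > B → ℝ) : ℝ :=
  if IsCyclic B then t B - ∑ C ∈ (univ.filter fun C : Subgroup G => B < C).attach,
      rec C.1 (mem_filter.1 C.2).2 else 0

/-- the coefficients, by recursion from above -/
noncomputable def aF [Fintype (Subgroup G)] (t : Subgroup G → ℝ) : Subgroup G → ℝ :=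
  (wellFounded_gt (α := Subgroup G)).fix (step G t)

open Classical in
theorem aF_eq [Fintype (Subgroup G)] (t : Subgroup G → ℝ) (B : Subgroup G) : aF G t B =
    if IsCyclic B then t B - ∑ C ∈ univ.filter (fun C : Subgroup G => B < C), aF G t C else 0 := by
  have h : aF G t B = step G t B fun C _ => aF G t C := by
    unfold aF
    rw [WellFounded.fix_eq]
  rw [h]
  unfold step
  split_ifs
  · rw [sum_attach (univ.filter fun C : Subgroup G => B < C) fun C => aF G t C]
  · rfl

open Classical in
theorem exists_a [Fintype (Subgroup G)] (t : Subgroup G → ℝ) :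
    ∃ a : Subgroup G → ℝ, (∀ C : Subgroup G, ¬ IsCyclic C → a C = 0) ∧
    ∀ B : Subgroup G, IsCyclic B → ∑ C ∈ univ.filter (fun C : Subgroup G => B ≤ C), a C = t B := by
  refine ⟨aF G t, fun C hC => by rw [aF_eq, if_neg hC], fun B hB => ?_⟩
  have h1 : (univ.filter fun C : Subgroup G => B ≤ C) =
      insert B (univ.filter fun C : Subgroup G => B < C) := by
    ext C
    simp only [mem_filter, mem_univ, true_and, mem_insert]
    constructor
    · intro h
      rcases eq_or_lt_of_le h with h | h
      · exact Or.inl h.symm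
      · exact Or.inr h
    · rintro (rfl | h)
      · exact le_rfl
      · exact h.le
  rw [h1, sum_insert (by simp), aF_eq, if_pos hB]
  ring

open Classical in
/-- **Artin's relation**, for the character induced from the trivial character of a subgroup. -/
theorem artin [Fintype G] [Fintype (Subgroup G)] (B : Subgroup G) : ∃ a : Subgroup G → ℝ,
    (∀ C : Subgroup G, ¬ IsCyclic C → a C = 0) ∧ ∀ g : G,
      ∑ C : Subgroup G, a C * ((univ.filter fun x : G => x⁻¹ * g * x ∈ C).card : ℝ) =
        ((univ.filter fun x : G => x⁻¹ * g * x ∈ B).card : ℝ) := by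
  obtain ⟨a, ha, h⟩ := exists_a G fun C => if C ≤ B then 1 else 0
  refine ⟨a, ha, fun g => ?_⟩
  have h1 : ∀ C : Subgroup G, a C * ((univ.filter fun x : G => x⁻¹ * g * x ∈ C).card : ℝ) =
      ∑ x : G, if x⁻¹ * g * x ∈ C then a C else 0 := by
    intro C
    rw [← sum_filter, sum_const, nsmul_eq_mul, mul_comm]
  rw [sum_congr rfl fun C _ => h1 C, sum_comm]
  have h2 : ∀ x : G, (∑ C : Subgroup G, if x⁻¹ * g * x ∈ C then a C else 0) =
      if x⁻¹ * g * x ∈ B then 1 else 0 := by
    intro x
    have h3 := h (Subgroup.zpowers (x⁻¹ * g * x)) inferInstance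
    rw [Subgroup.zpowers_le] at h3
    rw [← sum_filter, ← h3]
    refine sum_congr ?_ fun _ _ => rfl
    ext C
    simp only [mem_filter, mem_univ, true_and, Subgroup.zpowers_le]
  rw [sum_congr rfl fun x _ => h2 x, ← sum_filter, sum_const, nsmul_eq_mul, mul_one]

end sub

section act

variable {E I : Type} [Group E] [Fintype E] [Fintype I] [DecidableEq I]
  (φ : E →* Equiv.Perm I) (htr : ∀ i j, ∃ x, φ x i = j) (i₀ : I)

include htr

/-- sums of class functions against the permutation character -/
theorem sum_fix {ψ : E → ℝ} (hψ : ∀ e x, ψ (x * e * x⁻¹) = ψ e) :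
    ∑ e, ψ e * ((univ.filter fun i => φ e i = i).card : ℝ) =
      Fintype.card I * ∑ e ∈ univ.filter (fun e => φ e i₀ = i₀), ψ e := by
  classical
  have h1 : ∀ e, ψ e * ((univ.filter fun i => φ e i = i).card : ℝ) =
      ∑ i, if φ e i = i then ψ e else 0 := by
    intro e
    rw [← sum_filter, sum_const, nsmul_eq_mul, mul_comm]
  rw [sum_congr rfl fun e _ => h1 e, sum_comm]
  have h2 : ∀ i, (∑ e, if φ e i = i then ψ e else 0) =
      ∑ e ∈ univ.filter (fun e => φ e i₀ = i₀), ψ e := by
    intro i
    obtain ⟨x, rfl⟩ := htr i₀ i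
    rw [sum_filter]
    refine (Fintype.sum_equiv (MulAut.conj x).toEquiv _ _ fun e => ?_).symm
    have h3 : (φ (x * e * x⁻¹) (φ x i₀) = φ x i₀) ↔ φ e i₀ = i₀ := by
      rw [← Equiv.Perm.mul_apply, ← map_mul, inv_mul_cancel_right, map_mul,
        Equiv.Perm.mul_apply]
      exact (φ x).injective.eq_iff
    change (if φ e i₀ = i₀ then ψ e else 0) =
      if φ (x * e * x⁻¹) (φ x i₀) = φ x i₀ then ψ (x * e * x⁻¹) else 0
    rw [hψ]
    exact if_congr h3.symm rfl rfl
  rw [sum_congr rfl fun i _ => h2 i, sum_const, card_univ, nsmul_eq_mul]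

/-- all fibres of `x ↦ φ x i₀` have the same number of elements -/
theorem fibre (i : I) : (univ.filter fun x => φ x i₀ = i).card =
    (univ.filter fun x => φ x i₀ = i₀).card := by
  classical
  obtain ⟨y, hy⟩ := htr i₀ i
  refine (card_bij (fun x _ => y * x) (fun x hx => ?_) (fun x _ z _ h => mul_left_cancel h)
    fun x hx => ⟨y⁻¹ * x, ?_, by rw [mul_inv_cancel_left]⟩).symm
  · have hx' := (mem_filter.1 hx).2
    refine mem_filter.2 ⟨mem_univ _, ?_⟩
    rw [map_mul, Equiv.Perm.mul_apply, hx', hy]
  · have hx' := (mem_filter.1 hx).2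
    refine mem_filter.2 ⟨mem_univ _, ?_⟩
    rw [map_mul, Equiv.Perm.mul_apply, hx', map_inv, Equiv.Perm.inv_eq_iff_eq, hy]

theorem card_stab : Fintype.card I * (univ.filter fun x => φ x i₀ = i₀).card = Fintype.card E := by
  classical
  have h := card_eq_sum_card_fiberwise (s := (univ : Finset E)) (t := (univ : Finset I))
    (f := fun x => φ x i₀) (fun x _ => mem_univ _)
  rw [← card_univ (α := E), h, sum_congr rfl fun i _ => fibre φ htr i₀ i, sum_const, card_univ,
    smul_eq_mul]

/-- the permutation character -/
theorem fix_eq (g : E) : (univ.filter fun i => φ g i = i).card *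
    (univ.filter fun x => φ x i₀ = i₀).card =
      (univ.filter fun x => φ (x⁻¹ * g * x) i₀ = i₀).card := by
  classical
  have h := card_eq_sum_card_fiberwise (s := univ.filter fun x => φ (x⁻¹ * g * x) i₀ = i₀)
    (t := univ.filter fun i => φ g i = i) (f := fun x => φ x i₀) (fun x hx => by
      have hx' := (mem_filter.1 (mem_coe.1 hx)).2
      refine mem_coe.2 (mem_filter.2 ⟨mem_univ _, ?_⟩)
      rw [map_mul, map_mul, Equiv.Perm.mul_apply, Equiv.Perm.mul_apply, map_inv,
        Equiv.Perm.inv_eq_iff_eq] at hx'
      exact hx'.symm ▸ rfl)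
  rw [h, sum_congr rfl fun i hi => ?_, sum_const, smul_eq_mul]
  have hi' := (mem_filter.1 hi).2
  rw [filter_filter, ← fibre φ htr i₀ i]
  congr 1
  ext x
  simp only [mem_filter, mem_univ, true_and]
  constructor
  · exact fun hx => hx.2
  · intro hx
    refine ⟨?_, hx⟩
    rw [map_mul, map_mul, Equiv.Perm.mul_apply, Equiv.Perm.mul_apply, map_inv,
      Equiv.Perm.inv_eq_iff_eq, hx, hi']

end act

end Pool.Agent.Q12.ST.Artin
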