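import Pool.Agent.Q12.ST.GenU

set_option autoImplicit false

/-!
# Averages over the primes of a number field
-/

namespace Pool.Agent.Q12.ST

open Filter Topology ComplexConjugate MeasureTheory NumberField IsDedekindDomain

section

variable (K : Type) [Field K] [NumberField K]

theorem fin_primes (N : ℕ) :
    {v : HeightOneSpectrum (𝓞 K) | Ideal.absNorm v.asIdeal ≤ N}.Finite := by
  refine Set.Finite.of_finite_image (f := fun v : HeightOneSpectrum (𝓞 K) => v.asIdeal) ?_ ?_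
  · refine (Ideal.finite_setOfPred_absNorm_le (S := 𝓞 K) N).subset ?_
    rintro _ ⟨v, hv, rfl⟩
    exact hv
  · intro v _ w _ h
    exact HeightOneSpectrum.ext h

/-- the primes of norm at most `N` -/
noncomputable def PV (N : ℕ) : Finset (HeightOneSpectrum (𝓞 K)) := (fin_primes K N).toFinset

variable {K}

theorem mem_PV {N : ℕ} {v : HeightOneSpectrum (𝓞 K)} :
    v ∈ PV K N ↔ Ideal.absNorm v.asIdeal ≤ N := by
  unfold PV
  rw [Set.Finite.mem_toFinset]
  rfl

theorem avg_ex (g : HeightOneSpectrum (𝓞 K) → ℂ) (N : ℕ) :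
    (∑ᶠ v : {v : HeightOneSpectrum (𝓞 K) // Ideal.absNorm v.asIdeal ≤ N}, g v.1) /
      (Nat.card {v : HeightOneSpectrum (𝓞 K) // Ideal.absNorm v.asIdeal ≤ N} : ℂ) =
      ex (PV K N) g := by
  let e : {v : HeightOneSpectrum (𝓞 K) // Ideal.absNorm v.asIdeal ≤ N} ≃ (PV K N) :=
    Equiv.subtypeEquivRight fun v => mem_PV.symm
  have hfin : Finite {v : HeightOneSpectrum (𝓞 K) // Ideal.absNorm v.asIdeal ≤ N} :=
    Finite.of_equiv _ e.symm
  unfold ex
  have h1 : (∑ᶠ v : {v : HeightOneSpectrum (𝓞 K) // Ideal.absNorm v.asIdeal ≤ N}, g v.1) =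
      ∑ v ∈ PV K N, g v := by
    rw [← Finset.sum_coe_sort, ← finsum_eq_sum_of_fintype, ← finsum_comp_equiv e]
    rfl
  have h2 : Nat.card {v : HeightOneSpectrum (𝓞 K) // Ideal.absNorm v.asIdeal ≤ N} =
      (PV K N).card := by
    rw [Nat.card_congr e, Nat.card_eq_fintype_card, Fintype.card_coe]
  rw [h1, h2]

theorem PV_ne : ∀ᶠ N in atTop, (PV K N).Nonempty := by
  obtain ⟨v⟩ : Nonempty (HeightOneSpectrum (𝓞 K)) := by
    obtain ⟨M, hM⟩ := Ideal.exists_maximal (𝓞 K)
    refine ⟨⟨M, hM.isPrime, fun h => ?_⟩⟩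
    subst h
    exact RingOfIntegers.not_isField K (Ring.isField_iff_maximal_bot.2 hM)
  filter_upwards [eventually_ge_atTop (Ideal.absNorm v.asIdeal)] with N hN
  exact ⟨v, mem_PV.2 hN⟩

end

end Pool.Agent.Q12.ST
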