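import Mathlib

set_option autoImplicit false

/-!
# Averages over finite sets and Bessel's inequality
-/

namespace Pool.Agent.Q12.ST

open Filter Topology ComplexConjugate

section

variable {P : Type*}

/-- the average over a finite set -/
noncomputable def ex (s : Finset P) (φ : P → ℂ) : ℂ := (∑ v ∈ s, φ v) / (s.card : ℂ)

theorem ex_add (s : Finset P) (φ ψ : P → ℂ) :
    ex s (fun v => φ v + ψ v) = ex s φ + ex s ψ := by
  unfold ex
  rw [Finset.sum_add_distrib, add_div]

theorem ex_sub (s : Finset P) (φ ψ : P → ℂ) :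
    ex s (fun v => φ v - ψ v) = ex s φ - ex s ψ := by
  unfold ex
  rw [Finset.sum_sub_distrib, sub_div]

theorem ex_mul (s : Finset P) (a : ℂ) (φ : P → ℂ) :
    ex s (fun v => a * φ v) = a * ex s φ := by
  unfold ex
  rw [← Finset.mul_sum, mul_div_assoc]

theorem ex_sum {κ : Type*} (s : Finset P) (t : Finset κ) (φ : κ → P → ℂ) :
    ex s (fun v => ∑ k ∈ t, φ k v) = ∑ k ∈ t, ex s (φ k) := by
  unfold ex
  rw [Finset.sum_comm, Finset.sum_div]

theorem ex_conj (s : Finset P) (φ : P → ℂ) : ex s (fun v => conj (φ v)) = conj (ex s φ) := by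
  unfold ex
  rw [map_div₀, map_sum, map_natCast]

theorem norm_ex_le (s : Finset P) {φ : P → ℂ} {C : ℝ} (hC : 0 ≤ C) (h : ∀ v, ‖φ v‖ ≤ C) :
    ‖ex s φ‖ ≤ C := by
  unfold ex
  rw [norm_div, Complex.norm_natCast]
  rcases s.eq_empty_or_nonempty with rfl | hs
  · simpa using hC
  · have h0 : (0 : ℝ) < s.card := by exact_mod_cast hs.card_pos
    rw [div_le_iff₀ h0]
    refine (norm_sum_le _ _).trans ?_
    refine (Finset.sum_le_sum fun v _ => h v).trans ?_
    rw [Finset.sum_const, nsmul_eq_mul, mul_comm]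

/-- **Bessel's inequality** for a nearly orthogonal system. -/
theorem bessel {ι : Type*} (s : Finset P) (hs : s.Nonempty) (J : Finset ι) (u : ι → P → ℂ) {A δ : ℝ}
    (hA : 0 < A) (hδ : 0 ≤ δ)
    (h1 : ∀ i ∈ J, ‖ex s fun v => u i v * conj (u i v)‖ ≤ A)
    (h2 : ∀ i ∈ J, ∀ j ∈ J, i ≠ j → ‖ex s fun v => u i v * conj (u j v)‖ ≤ δ)
    (F : P → ℂ) (hF : ∀ v, ‖F v‖ ≤ 1) :
    ∑ i ∈ J, ‖ex s fun v => F v * u i v‖ ^ 2 ≤ A + δ * J.card := by
  classical
  set b : ι → ℂ := fun i => ex s fun v => F v * u i v with hb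
  set B : ℝ := ∑ i ∈ J, ‖b i‖ ^ 2 with hB
  have hB0 : 0 ≤ B := Finset.sum_nonneg fun i _ => sq_nonneg _
  set w : P → ℂ := fun v => ∑ i ∈ J, conj (b i) * u i v with hw
  have hc : (0 : ℝ) < s.card := by exact_mod_cast hs.card_pos
  -- the average of `F w`
  have e1 : ex s (fun v => F v * w v) = (B : ℂ) := by
    have : (fun v => F v * w v) = fun v => ∑ i ∈ J, conj (b i) * (F v * u i v) := by
      funext v
      rw [hw, Finset.mul_sum]
      exact Finset.sum_congr rfl fun i _ => by ring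
    rw [this, ex_sum]
    have h3 : ∀ i ∈ J, ex s (fun v => conj (b i) * (F v * u i v)) = ((‖b i‖ ^ 2 : ℝ) : ℂ) := by
      intro i _
      rw [ex_mul, ← Complex.normSq_eq_norm_sq, mul_comm]
      exact Complex.mul_conj _
    rw [Finset.sum_congr rfl h3, hB]
    push_cast
    rfl
  -- the average of `|w|²`
  have e2 : ‖ex s (fun v => w v * conj (w v))‖ ≤ (A + δ * J.card) * B := by
    have : (fun v => w v * conj (w v)) = fun v => ∑ i ∈ J, ∑ j ∈ J,
        (conj (b i) * b j) * (u i v * conj (u j v)) := by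
      funext v
      rw [hw]
      simp only [map_sum, map_mul, Complex.conj_conj]
      rw [Finset.sum_mul_sum]
      exact Finset.sum_congr rfl fun i _ => Finset.sum_congr rfl fun j _ => by ring
    rw [this, ex_sum]
    have h3 : ∀ i ∈ J, ‖ex s (fun v => ∑ j ∈ J, (conj (b i) * b j) * (u i v * conj (u j v)))‖ ≤
        A * ‖b i‖ ^ 2 + δ * ∑ j ∈ J, ‖b i‖ * ‖b j‖ := by
      intro i hi
      rw [ex_sum]
      refine (norm_sum_le _ _).trans ?_
      have h4 : ∀ j ∈ J, ‖ex s (fun v => (conj (b i) * b j) * (u i v * conj (u j v)))‖ ≤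
          (if i = j then A * ‖b i‖ ^ 2 else 0) + δ * (‖b i‖ * ‖b j‖) := by
        intro j hj
        rw [ex_mul, norm_mul, norm_mul, RCLike.norm_conj]
        by_cases hij : i = j
        · subst hij
          rw [if_pos rfl]
          have h5 := mul_le_mul_of_nonneg_left (h1 i hi) (mul_nonneg (norm_nonneg (b i)) (norm_nonneg (b i)))
          have h6 : 0 ≤ δ * (‖b i‖ * ‖b i‖) := by positivity
          nlinarith
        · rw [if_neg hij, zero_add]
          have h5 := mul_le_mul_of_nonneg_left (h2 i hi j hj hij)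
            (mul_nonneg (norm_nonneg (b i)) (norm_nonneg (b j)))
          linarith
      refine (Finset.sum_le_sum h4).trans ?_
      rw [Finset.sum_add_distrib, Finset.sum_ite_eq, if_pos hi, Finset.mul_sum]
    refine (norm_sum_le _ _).trans ((Finset.sum_le_sum h3).trans ?_)
    rw [Finset.sum_add_distrib, ← Finset.mul_sum, ← Finset.mul_sum, ← hB]
    have h4 : ∑ i ∈ J, ∑ j ∈ J, ‖b i‖ * ‖b j‖ = (∑ i ∈ J, ‖b i‖) ^ 2 := by
      rw [sq, Finset.sum_mul_sum]
    have h5 : (∑ i ∈ J, ‖b i‖) ^ 2 ≤ J.card * B := by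
      have := sq_sum_le_card_mul_sum_sq (s := J) (f := fun i => ‖b i‖)
      exact this
    rw [h4]
    nlinarith
  -- conclusion
  set A' : ℝ := A + δ * J.card with hA'
  have hA'0 : 0 < A' := by positivity
  set t : ℝ := 1 / A' with ht
  have ht0 : 0 < t := by positivity
  have e3 : 2 * t * B ≤ 1 + t ^ 2 * (A' * B) := by
    have h3 : ∀ v, 2 * t * (F v * w v).re ≤ 1 + t ^ 2 * ‖w v‖ ^ 2 := by
      intro v
      have h4 : (F v * w v).re ≤ ‖F v‖ * ‖w v‖ := by
        rw [← norm_mul]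
        exact Complex.re_le_norm _
      have h5 : ‖F v‖ * ‖w v‖ ≤ ‖w v‖ := mul_le_of_le_one_left (norm_nonneg _) (hF v)
      have h6 : 0 ≤ (1 - t * ‖w v‖) ^ 2 := sq_nonneg _
      have h7 : 2 * t * (F v * w v).re ≤ 2 * t * ‖w v‖ :=
        mul_le_mul_of_nonneg_left (h4.trans h5) (by positivity)
      nlinarith
    have h4 := Finset.sum_le_sum fun v (_ : v ∈ s) => h3 v
    rw [← Finset.mul_sum, Finset.sum_add_distrib, ← Finset.mul_sum, Finset.sum_const, nsmul_eq_mul,
      mul_one] at h4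
    have h5 : (∑ v ∈ s, (F v * w v).re) = s.card * B := by
      have h6 := congrArg Complex.re e1
      unfold ex at h6
      rw [Complex.ofReal_re, div_eq_mul_inv, ← Complex.ofReal_natCast, ← Complex.ofReal_inv,
        Complex.re_mul_ofReal, Complex.re_sum] at h6
      rw [← h6]
      field_simp
    have h6 : (∑ v ∈ s, ‖w v‖ ^ 2) ≤ s.card * (A' * B) := by
      have h7 : ex s (fun v => w v * conj (w v)) = (((∑ v ∈ s, ‖w v‖ ^ 2) / s.card : ℝ) : ℂ) := by
        unfold ex
        push_cast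
        congr 1
        refine Finset.sum_congr rfl fun v _ => ?_
        rw [Complex.mul_conj, Complex.normSq_eq_norm_sq]
        push_cast
        rfl
      rw [h7, Complex.norm_real, Real.norm_eq_abs, abs_of_nonneg (by positivity), div_le_iff₀ hc] at e2
      linarith
    rw [h5] at h4
    have h7 : s.card * (2 * t * B) ≤ s.card * (1 + t ^ 2 * (A' * B)) := by
      have := mul_le_mul_of_nonneg_left h6 (sq_nonneg t)
      nlinarith
    exact le_of_mul_le_mul_left h7 hc
  have e4 : t * A' = 1 := by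
    rw [ht]
    field_simp
  have e5 : t ^ 2 * (A' * B) = t * B := by
    calc t ^ 2 * (A' * B) = t * (t * A') * B := by ring
      _ = t * B := by rw [e4, mul_one]
  rw [e5] at e3
  have e6 : t * B ≤ 1 := by linarith
  calc B = A' * (t * B) := by
        calc B = (t * A') * B := by rw [e4, one_mul]
          _ = A' * (t * B) := by ring
    _ ≤ A' * 1 := mul_le_mul_of_nonneg_left e6 hA'0.le
    _ = A' := mul_one _

/-- the number of the large correlations -/
theorem bessel_card {ι : Type*} [DecidableEq ι] (s : Finset P) (hs : s.Nonempty) (J : Finset ι)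
    (u : ι → P → ℂ) {A δ : ℝ} (hA : 0 < A) (hδ : 0 ≤ δ)
    (h1 : ∀ i ∈ J, ‖ex s fun v => u i v * conj (u i v)‖ ≤ A)
    (h2 : ∀ i ∈ J, ∀ j ∈ J, i ≠ j → ‖ex s fun v => u i v * conj (u j v)‖ ≤ δ)
    (F : P → ℂ) (hF : ∀ v, ‖F v‖ ≤ 1) {ε : ℝ} (hε : 0 < ε) :
    ((J.filter fun i => ε < ‖ex s fun v => F v * u i v‖).card : ℝ) ≤ (A + δ * J.card) / ε ^ 2 := by
  classical
  have h3 := bessel s hs J u hA hδ h1 h2 F hF
  rw [le_div_iff₀ (by positivity)]
  refine le_trans ?_ h3
  rw [← nsmul_eq_mul, ← Finset.sum_const]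
  refine (Finset.sum_le_sum (g := fun i => ‖ex s fun v => F v * u i v‖ ^ 2) fun i hi => ?_).trans
    (Finset.sum_le_sum_of_subset_of_nonneg (Finset.filter_subset _ _) fun _ _ _ => sq_nonneg _)
  exact pow_le_pow_left₀ hε.le (Finset.mem_filter.1 hi).2.le 2

end

end Pool.Agent.Q12.ST
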