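import Mathlib.MeasureTheory.Group.Integral
import Mathlib.MeasureTheory.Integral.Average
import Mathlib.Topology.Algebra.Group.Basic
import Mathlib.Tactic

/-!
# Integrals over the components of a compact group

`G` is a compact group with an invariant probability measure `μ` and `p : G → Δ` a continuous
homomorphism onto a finite group.
-/

set_option autoImplicit false
set_option linter.unusedSectionVars false

namespace Pool.Agent.Q12.ST.Comp

open MeasureTheory Set

variable {G Δ : Type} [Group G] [TopologicalSpace G] [IsTopologicalGroup G] [MeasurableSpace G]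
  [BorelSpace G] [Group Δ] (μ : Measure G) [IsProbabilityMeasure μ] [μ.IsMulLeftInvariant]
  [μ.IsMulRightInvariant] (p : G →* Δ)

/-- the average of `f` over the component `δ` -/
noncomputable def cAvg (f : G → ℝ) (δ : Δ) : ℝ := ⨍ g in p ⁻¹' {δ}, f g ∂μ

variable {p}

theorem isOpen_fibre (hpo : IsOpen (p.ker : Set G)) (δ : Δ) : IsOpen (p ⁻¹' {δ}) := by
  rw [isOpen_iff_mem_nhds]
  intro g₀ hg₀
  have h0 : p g₀ = δ := hg₀
  have h1 : p ⁻¹' {δ} = (fun g => g₀⁻¹ * g) ⁻¹' (p.ker : Set G) := by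
    ext g
    simp only [mem_preimage, mem_singleton_iff, SetLike.mem_coe, MonoidHom.mem_ker, map_mul, map_inv,
      h0]
    constructor
    · intro h
      rw [h, inv_mul_cancel]
    · intro h
      exact (inv_mul_eq_one.1 h).symm
  rw [h1]
  refine (hpo.preimage (continuous_const_mul g₀⁻¹)).mem_nhds ?_
  simp

theorem measurable_fibre (hpo : IsOpen (p.ker : Set G)) (δ : Δ) : MeasurableSet (p ⁻¹' {δ}) :=
  (isOpen_fibre hpo δ).measurableSet

theorem measure_fibre (hp : Function.Surjective p) (δ : Δ) :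
    μ.real (p ⁻¹' {δ}) = μ.real (p ⁻¹' {1}) := by
  obtain ⟨g₀, hg₀⟩ := hp δ
  have h1 : p ⁻¹' {δ} = (fun g => g₀⁻¹ * g) ⁻¹' (p ⁻¹' {1}) := by
    ext g
    simp only [mem_preimage, mem_singleton_iff, map_mul, map_inv, hg₀]
    constructor
    · intro h
      rw [h, inv_mul_cancel]
    · intro h
      exact (inv_mul_eq_one.1 h).symm
  unfold Measure.real
  rw [h1, measure_preimage_mul]

variable [Fintype Δ]

theorem measure_one (hp : Function.Surjective p) (hpo : IsOpen (p.ker : Set G)) :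
    (Fintype.card Δ : ℝ) * μ.real (p ⁻¹' {1}) = 1 := by
  classical
  have h1 : μ.real (⋃ δ : Δ, p ⁻¹' {δ}) = ∑ δ : Δ, μ.real (p ⁻¹' {δ}) := by
    have h2 := measureReal_biUnion_finset (μ := μ) (s := (Finset.univ : Finset Δ))
      (f := fun δ => p ⁻¹' {δ}) (fun a _ b _ hab => by
        refine Set.disjoint_left.2 fun g ha hb => hab ?_
        have ha' : p g = a := ha
        have hb' : p g = b := hb
        rw [← ha', hb']) (fun δ _ => measurable_fibre hpo δ)
    simpa using h2
  have h2 : (⋃ δ : Δ, p ⁻¹' {δ}) = univ := by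
    ext g
    simp
  rw [h2, probReal_univ] at h1
  rw [h1, Finset.sum_congr rfl fun δ _ => measure_fibre μ hp δ, Finset.sum_const,
    Finset.card_univ, nsmul_eq_mul]

theorem cAvg_eq (hp : Function.Surjective p) (hpo : IsOpen (p.ker : Set G)) (f : G → ℝ) (δ : Δ) :
    cAvg μ p f δ = Fintype.card Δ * ∫ g in p ⁻¹' {δ}, f g ∂μ := by
  have h1 := measure_one μ hp hpo
  have h2 : μ.real (p ⁻¹' {1}) ≠ 0 := fun h => by
    rw [h, mul_zero] at h1
    exact zero_ne_one h1
  unfold cAvg
  rw [setAverage_eq, measure_fibre μ hp, smul_eq_mul, ← eq_inv_of_mul_eq_one_left h1]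

theorem cAvg_conj (hp : Function.Surjective p) (hpo : IsOpen (p.ker : Set G)) {f : G → ℝ}
    (hf : ∀ g h, f (h * g * h⁻¹) = f g) (δ' δ : Δ) :
    cAvg μ p f (δ * δ' * δ⁻¹) = cAvg μ p f δ' := by
  classical
  rw [cAvg_eq μ hp hpo, cAvg_eq μ hp hpo]
  congr 1
  obtain ⟨g₀, hg₀⟩ := hp δ
  rw [← integral_indicator (measurable_fibre hpo _), ← integral_indicator (measurable_fibre hpo _)]
  rw [← integral_mul_left_eq_self (μ := μ) (fun g => (p ⁻¹' {δ * δ' * δ⁻¹}).indicator f g) g₀,
    ← integral_mul_right_eq_self (μ := μ)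
      (fun g => (p ⁻¹' {δ * δ' * δ⁻¹}).indicator f (g₀ * g)) g₀⁻¹]
  congr 1
  funext g
  rw [← mul_assoc]
  have h1 : g₀ * g * g₀⁻¹ ∈ p ⁻¹' {δ * δ' * δ⁻¹} ↔ g ∈ p ⁻¹' {δ'} := by
    simp only [mem_preimage, mem_singleton_iff, map_mul, map_inv, hg₀]
    constructor
    · intro h
      exact mul_left_cancel (mul_right_cancel h)
    · intro h
      rw [h]
  by_cases h2 : g ∈ p ⁻¹' {δ'}
  · rw [Set.indicator_of_mem (h1.2 h2), Set.indicator_of_mem h2, hf]
  · rw [Set.indicator_of_notMem fun h => h2 (h1.1 h), Set.indicator_of_notMem h2]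

theorem cAvg_one (hp : Function.Surjective p) (hpo : IsOpen (p.ker : Set G)) (c : ℝ) (δ : Δ) :
    cAvg μ p (fun _ => c) δ = c := by
  rw [cAvg_eq μ hp hpo, setIntegral_const, measure_fibre μ hp, smul_eq_mul, ← mul_assoc,
    measure_one μ hp hpo, one_mul]

theorem cAvg_sub_le (hp : Function.Surjective p) (hpo : IsOpen (p.ker : Set G)) {f : G → ℝ}
    (hf : Integrable f μ) {s : ℝ} (g : G) (hs : ∀ h, p h = p g → |f g - f h| ≤ s) :
    |f g - cAvg μ p f (p g)| ≤ s := by
  have h1 : f g - cAvg μ p f (p g) =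
      Fintype.card Δ * ∫ h in p ⁻¹' {p g}, (f g - f h) ∂μ := by
    rw [integral_sub (integrable_const _).integrableOn hf.integrableOn, mul_sub, ← cAvg_eq μ hp hpo,
      ← cAvg_eq μ hp hpo, cAvg_one μ hp hpo]
  have h2 : ‖∫ h in p ⁻¹' {p g}, (f g - f h) ∂μ‖ ≤ s * μ.real (p ⁻¹' {p g}) :=
    norm_setIntegral_le_of_norm_le_const (measure_lt_top _ _) (fun h hh => hs h hh)
  rw [h1, abs_mul, Nat.abs_cast]
  rw [Real.norm_eq_abs, measure_fibre μ hp] at h2
  calc (Fintype.card Δ : ℝ) * |∫ h in p ⁻¹' {p g}, (f g - f h) ∂μ| ≤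
      Fintype.card Δ * (s * μ.real (p ⁻¹' {1})) :=
        mul_le_mul_of_nonneg_left h2 (Nat.cast_nonneg _)
    _ = s * (Fintype.card Δ * μ.real (p ⁻¹' {1})) := by ring
    _ = s := by rw [measure_one μ hp hpo, mul_one]

variable {E : Type} [Group E] [Fintype E] (q : E →* Δ) (S : Subgroup E)

open Classical in
/-- **The average over the part of `G` above a subgroup.** -/
theorem part_avg (hp : Function.Surjective p) (hpo : IsOpen (p.ker : Set G)) {f : G → ℝ}
    (hf : Integrable f μ) :
    ⨍ g in {g | ∃ e ∈ S, p g = q e}, f g ∂μ =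
      ((Finset.univ.filter fun e => e ∈ S).card : ℝ)⁻¹ *
        ∑ e ∈ Finset.univ.filter (fun e => e ∈ S), cAvg μ p f (q e) := by
  set H : Set G := {g | ∃ e ∈ S, p g = q e} with hH
  set T : Finset E := Finset.univ.filter fun e => e ∈ S with hT
  have hTp : 0 < (T.card : ℝ) := by
    have : 0 < T.card := Finset.card_pos.2 ⟨1, Finset.mem_filter.2 ⟨Finset.mem_univ _, S.one_mem⟩⟩
    exact_mod_cast this
  have hHm : MeasurableSet H := by
    have e1 : H = ⋃ e ∈ T, p ⁻¹' {q e} := by
      ext g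
      simp [hH, hT]
    rw [e1]
    exact Finset.measurableSet_biUnion _ fun e _ => measurable_fibre hpo _
  -- the number of elements above a point
  set k : ℕ := (T.filter fun e => q e = 1).card with hk
  have hcount : ∀ g, ((T.filter fun e => p g = q e).card : ℝ) = H.indicator (fun _ => (k : ℝ)) g := by
    intro g
    by_cases hg : g ∈ H
    · rw [Set.indicator_of_mem hg]
      obtain ⟨e₀, he₀, hge⟩ := hg
      congr 1
      refine (Finset.card_bij (fun e _ => e₀ * e) (fun e he => ?_) (fun a _ b _ h => mul_left_cancel h)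
        fun e he => ⟨e₀⁻¹ * e, ?_, by rw [mul_inv_cancel_left]⟩).symm
      · obtain ⟨h1, h2⟩ := Finset.mem_filter.1 he
        refine Finset.mem_filter.2 ⟨Finset.mem_filter.2 ⟨Finset.mem_univ _,
          S.mul_mem he₀ (Finset.mem_filter.1 h1).2⟩, ?_⟩
        rw [map_mul, h2, mul_one, hge]
      · obtain ⟨h1, h2⟩ := Finset.mem_filter.1 he
        refine Finset.mem_filter.2 ⟨Finset.mem_filter.2 ⟨Finset.mem_univ _,
          S.mul_mem (S.inv_mem he₀) (Finset.mem_filter.1 h1).2⟩, ?_⟩
        rw [map_mul, map_inv, ← hge, ← h2, inv_mul_cancel]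
    · rw [Set.indicator_of_notMem hg]
      have : (T.filter fun e => p g = q e) = ∅ := by
        rw [Finset.filter_eq_empty_iff]
        intro e he h
        exact hg ⟨e, (Finset.mem_filter.1 he).2, h⟩
      rw [this]
      simp
  -- the sum over `S`
  have hsum : ∀ F : G → ℝ, Integrable F μ →
      ∑ e ∈ T, cAvg μ p F (q e) = Fintype.card Δ * (k * ∫ g in H, F g ∂μ) := by
    intro F hF
    rw [Finset.sum_congr rfl fun e _ => cAvg_eq μ hp hpo F (q e), ← Finset.mul_sum]
    congr 1
    rw [← integral_indicator hHm, ← integral_const_mul]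
    rw [Finset.sum_congr rfl fun e _ => (integral_indicator (measurable_fibre hpo (q e))).symm,
      ← integral_finsetSum _ fun e _ => hF.indicator (measurable_fibre hpo (q e))]
    congr 1
    funext g
    have h1 : ∀ e ∈ T, (p ⁻¹' {q e}).indicator F g = if p g = q e then F g else 0 := by
      intro e _
      by_cases h : p g = q e
      · rw [if_pos h, Set.indicator_of_mem (show g ∈ p ⁻¹' {q e} from h)]
      · rw [if_neg h, Set.indicator_of_notMem (show g ∉ p ⁻¹' {q e} from h)]
    rw [Finset.sum_congr rfl h1, ← Finset.sum_filter, Finset.sum_const, nsmul_eq_mul, hcount]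
    by_cases hg : g ∈ H
    · rw [Set.indicator_of_mem hg, Set.indicator_of_mem hg]
    · rw [Set.indicator_of_notMem hg, Set.indicator_of_notMem hg, zero_mul, mul_zero]
  have h1 := hsum (fun _ => 1) (integrable_const _)
  rw [Finset.sum_congr rfl fun e _ => cAvg_one μ hp hpo 1 (q e), Finset.sum_const, nsmul_eq_mul,
    mul_one, setIntegral_const, smul_eq_mul, mul_one] at h1
  rw [hsum f hf, h1, setAverage_eq, smul_eq_mul]
  have h2 : (Fintype.card Δ : ℝ) * k ≠ 0 := by
    intro h
    rw [← mul_assoc, h, zero_mul] at h1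
    exact hTp.ne' h1
  have h3 : μ.real H ≠ 0 := by
    intro h
    rw [h, mul_zero, mul_zero] at h1
    exact hTp.ne' h1
  have h4 : (Fintype.card Δ : ℝ) ≠ 0 := left_ne_zero_of_mul h2
  have h5 : (k : ℝ) ≠ 0 := right_ne_zero_of_mul h2
  field_simp

end Pool.Agent.Q12.ST.Comp
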