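import Pool.Agent.Q12.ST.Des

/-!
# Descent from the fields over which a Galois extension is cyclic
-/

set_option autoImplicit false
set_option linter.unusedSectionVars false

namespace Pool.Agent.Q12.ST.Des

open Filter Topology NumberField IsDedekindDomain MeasureTheory
open Pool.Agent.W401.Cheb
open Pool.Agent.W353.SP (EN Bd mnN)
open Pool.Agent.W353.NF (vx fixn fixn_le fixn_mul_ker push_fix act act_apply act_trans ker_act_open)
open Pool.Agent.Q11.ST (avg BaseChange)

section
variable {K : Type} [Field K] [NumberField K]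

/-- the field of the elements of `M` fixed by `γ` -/
noncomputable def fixedIn (M : IntermediateField K (AlgebraicClosure K)) (γ : GK K) :
    IntermediateField K (AlgebraicClosure K) :=
  M ⊓ IntermediateField.fixedField (Subgroup.zpowers γ)

theorem mem_fixedIn (M : IntermediateField K (AlgebraicClosure K)) (γ : GK K)
    (z : AlgebraicClosure K) : z ∈ fixedIn M γ ↔ z ∈ M ∧ γ z = z := by
  unfold fixedIn
  rw [IntermediateField.mem_inf, IntermediateField.mem_fixedField_iff]
  refine and_congr_right fun _ => ⟨fun h => h γ (Subgroup.mem_zpowers γ), fun h f hf => ?_⟩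
  have h1 : Subgroup.zpowers γ ≤ MulAction.stabilizer (GK K) z := by
    rw [Subgroup.zpowers_le]
    exact h
  exact h1 hf

open Classical in
/-- the permutation character of a field inside `M` -/
theorem fixn_eq {M F : IntermediateField K (AlgebraicClosure K)} [NumberField F] (hFM : F ≤ M)
    (U : Subgroup (GK K)) [U.Normal] (hU : M.fixingSubgroup = U) [Fintype (GK K ⧸ U)]
    (B : Subgroup (GK K ⧸ U)) (hB : ∀ γ : GK K, QuotientGroup.mk γ ∈ B ↔ γ ∈ F.fixingSubgroup)
    (γ : GK K) : (fixn K F γ : ℝ) * ((Finset.univ.filter fun e => e ∈ B).card : ℝ) =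
      ((Finset.univ.filter fun e : GK K ⧸ U => e⁻¹ * QuotientGroup.mk γ * e ∈ B).card : ℝ) := by
  have hUF : U ≤ F.fixingSubgroup := by
    rw [← hU]
    exact IntermediateField.fixingSubgroup_le hFM
  have hker : U ≤ (act K F).ker := by
    intro u hu
    rw [MonoidHom.mem_ker]
    refine Equiv.ext fun i => ?_
    obtain ⟨σ, hσ⟩ := act_trans (K := K) (F := F) F.val i
    rw [← hσ]
    have h1 : σ⁻¹ * u * σ ∈ U := by
      have := (inferInstance : U.Normal).conj_mem u hu σ⁻¹
      rwa [inv_inv] at this
    have h2 := (act_val (F := F) _).2 (hUF h1)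
    rw [map_mul, map_mul, Equiv.Perm.mul_apply, Equiv.Perm.mul_apply, map_inv,
      Equiv.Perm.inv_eq_iff_eq] at h2
    rw [h2]
    rfl
  have hmem : ∀ e : GK K ⧸ U, e ∈ B ↔ phi F U hker e F.val = F.val := by
    intro e
    obtain ⟨τ, rfl⟩ := QuotientGroup.mk_surjective e
    rw [phi_mk, act_val]
    exact hB τ
  have h1 := Artin.fix_eq (phi F U hker) (phi_trans U hker) F.val (QuotientGroup.mk γ)
  have h2 := fixn_phi (F := F) U hker γ
  have h3 : (Finset.univ.filter fun i => phi F U hker (QuotientGroup.mk γ) i = i).card =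
      fixn K F γ := by
    convert h2
  rw [h3] at h1
  have e1 : (Finset.univ.filter fun e : GK K ⧸ U => e ∈ B) =
      Finset.univ.filter fun e => phi F U hker e F.val = F.val :=
    Finset.filter_congr fun e _ => hmem e
  have e2 : (Finset.univ.filter fun e : GK K ⧸ U => e⁻¹ * QuotientGroup.mk γ * e ∈ B) =
      Finset.univ.filter fun e =>
        phi F U hker (e⁻¹ * QuotientGroup.mk γ * e) F.val = F.val :=
    Finset.filter_congr fun e _ => hmem _
  rw [e1, e2]
  exact_mod_cast h1

/-- the fixed field of a subgroup of the quotient -/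
theorem fixedField_comap {M : IntermediateField K (AlgebraicClosure K)} (U : Subgroup (GK K))
    [U.Normal] (hU : M.fixingSubgroup = U) (γ : GK K) :
    IntermediateField.fixedField
      ((Subgroup.zpowers (QuotientGroup.mk γ : GK K ⧸ U)).comap (QuotientGroup.mk' U)) =
      fixedIn M γ := by
  have hMU : M = IntermediateField.fixedField U := by
    rw [← hU]
    exact (InfiniteGalois.fixedField_fixingSubgroup M).symm
  apply le_antisymm
  · intro z hz
    rw [IntermediateField.mem_fixedField_iff] at hz
    rw [mem_fixedIn, hMU, IntermediateField.mem_fixedField_iff]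
    refine ⟨fun u hu => hz u ?_, hz γ ?_⟩
    · rw [Subgroup.mem_comap]
      have : (QuotientGroup.mk' U u : GK K ⧸ U) = 1 := (QuotientGroup.eq_one_iff u).2 hu
      rw [this]
      exact Subgroup.one_mem _
    · rw [Subgroup.mem_comap]
      exact Subgroup.mem_zpowers _
  · intro z hz
    rw [mem_fixedIn, hMU, IntermediateField.mem_fixedField_iff] at hz
    rw [IntermediateField.mem_fixedField_iff]
    intro τ hτ
    obtain ⟨n, hn⟩ := Subgroup.mem_zpowers_iff.1 (Subgroup.mem_comap.1 hτ)
    have h1 : (γ ^ n)⁻¹ * τ ∈ U := by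
      rw [← QuotientGroup.eq]
      exact hn
    have h2 : ((γ ^ n)⁻¹ * τ) z = z := hz.1 _ h1
    have h3 : (γ ^ n : GK K) z = z := by
      have h4 : Subgroup.zpowers γ ≤ MulAction.stabilizer (GK K) z := by
        rw [Subgroup.zpowers_le]
        exact hz.2
      exact h4 (Subgroup.zpow_mem_zpowers γ n)
    have h5 : τ = γ ^ n * ((γ ^ n)⁻¹ * τ) := by group
    rw [h5]
    change (γ ^ n : GK K) (((γ ^ n)⁻¹ * τ) z) = z
    rw [h2, h3]

end

section
variable {K : Type} [Field K] [NumberField K]
variable {G : Type} [Group G] [TopologicalSpace G] [IsTopologicalGroup G] [CompactSpace G]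
  [MeasurableSpace G] [BorelSpace G] {μ : Measure G} [IsProbabilityMeasure μ]
  [μ.IsMulLeftInvariant] [μ.IsMulRightInvariant] {N : Subgroup (GK K)} [N.Normal]
  {p : G →* GK K ⧸ N}

/-- **Descent.** -/
theorem cyclic_descent (hN : IsOpen (N : Set (GK K))) (hp : Function.Surjective p)
    (hpo : IsOpen (p.ker : Set G)) {x : HeightOneSpectrum (𝓞 K) → G}
    (M : IntermediateField K (AlgebraicClosure K)) [FiniteDimensional K M] [IsGalois K M]
    (h : ∀ (γ : GK K) [NumberField (fixedIn M γ)], HoldsOver μ p x (fixedIn M γ))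
    (F : IntermediateField K (AlgebraicClosure K)) [NumberField F] (hFM : F ≤ M) :
    HoldsOver μ p x F := by
  classical
  intro y hy f hf hcl
  obtain ⟨hUo, hUn⟩ := (InfiniteGalois.isOpen_and_normal_iff_finite_and_isGalois M).2
    ⟨inferInstance, inferInstance⟩
  set U : Subgroup (GK K) := M.fixingSubgroup with hU
  have hfinU : Finite (GK K ⧸ U) := Subgroup.quotient_finite_of_isOpen U hUo
  let _ : Fintype (GK K ⧸ U) := Fintype.ofFinite _
  let _ : Fintype (Subgroup (GK K ⧸ U)) := Fintype.ofFinite _
  set B : Subgroup (GK K ⧸ U) := F.fixingSubgroup.map (QuotientGroup.mk' U) with hBd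
  have hUF : U ≤ F.fixingSubgroup := IntermediateField.fixingSubgroup_le hFM
  have hB : ∀ γ : GK K, QuotientGroup.mk γ ∈ B ↔ γ ∈ F.fixingSubgroup := by
    intro γ
    constructor
    · rintro ⟨τ, hτ, hτγ⟩
      have h1 : τ⁻¹ * γ ∈ U := QuotientGroup.eq.1 hτγ
      have h2 := F.fixingSubgroup.mul_mem hτ (hUF h1)
      rwa [mul_inv_cancel_left] at h2
    · intro h
      exact ⟨γ, h, rfl⟩
  obtain ⟨a, ha, hart⟩ := Artin.artin (GK K ⧸ U) B
  -- the fields
  let Fd : Subgroup (GK K ⧸ U) → IntermediateField K (AlgebraicClosure K) := fun C =>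
    IntermediateField.fixedField (C.comap (QuotientGroup.mk' U))
  have hFd : ∀ C γ, QuotientGroup.mk γ ∈ C ↔ γ ∈ (Fd C).fixingSubgroup := by
    intro C γ
    have hCo : IsOpen ((C.comap (QuotientGroup.mk' U) : Subgroup (GK K)) : Set (GK K)) := by
      refine Subgroup.isOpen_mono (H₁ := U) (fun u hu => ?_) hUo
      rw [Subgroup.mem_comap]
      have : (QuotientGroup.mk' U u : GK K ⧸ U) = 1 := (QuotientGroup.eq_one_iff u).2 hu
      rw [this]
      exact Subgroup.one_mem _
    have h1 : (Fd C).fixingSubgroup = C.comap (QuotientGroup.mk' U) :=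
      InfiniteGalois.fixingSubgroup_fixedField ⟨_, Subgroup.isClosed_of_isOpen _ hCo⟩
    rw [h1, Subgroup.mem_comap]
    rfl
  have hFdM : ∀ C, Fd C ≤ M := by
    intro C z hz
    have hMU : M = IntermediateField.fixedField U :=
      (InfiniteGalois.fixedField_fixingSubgroup M).symm
    rw [hMU, IntermediateField.mem_fixedField_iff]
    intro u hu
    refine (IntermediateField.mem_fixedField_iff _ _).1 hz u ?_
    rw [Subgroup.mem_comap]
    have : (QuotientGroup.mk' U u : GK K ⧸ U) = 1 := (QuotientGroup.eq_one_iff u).2 hu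
    rw [this]
    exact Subgroup.one_mem _
  have hnf : ∀ C, NumberField (Fd C) := by
    intro C
    have : FiniteDimensional K (Fd C) :=
      FiniteDimensional.of_injective (IntermediateField.inclusion (hFdM C)).toLinearMap
        (IntermediateField.inclusion_injective (hFdM C))
    exact NumberField.of_module_finite K _
  -- the relation
  let κ : Type := Option (Subgroup (GK K ⧸ U))
  let Fk : κ → IntermediateField K (AlgebraicClosure K) := fun k => k.elim F Fd
  have hnk : ∀ k, NumberField (Fk k) := by
    intro k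
    cases k with
    | none => exact (inferInstance : NumberField F)
    | some C => exact hnf C
  let cd : Subgroup (GK K ⧸ U) → ℝ := fun C => ((Finset.univ.filter fun e => e ∈ C).card : ℝ)
  let c : κ → ℝ := fun k => k.elim (-cd B) fun C => a C * cd C
  have hrel : ∀ γ : GK K, ∑ k, c k * fixn K (Fk k) γ = 0 := by
    intro γ
    rw [Fintype.sum_option]
    have h1 : c none * fixn K (Fk none) γ = -((Finset.univ.filter fun e : GK K ⧸ U =>
        e⁻¹ * QuotientGroup.mk γ * e ∈ B).card : ℝ) := by
      have h2 := fixn_eq hFM U rfl B hB γ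
      change -cd B * (fixn K F γ : ℝ) = _
      rw [← h2]
      ring
    have h2 : ∀ C, c (some C) * fixn K (Fk (some C)) γ = a C *
        ((Finset.univ.filter fun e : GK K ⧸ U =>
        e⁻¹ * QuotientGroup.mk γ * e ∈ C).card : ℝ) := by
      intro C
      have := hnf C
      have h3 := fixn_eq (hFdM C) U rfl C (hFd C) γ
      change a C * cd C * (fixn K (Fd C) γ : ℝ) = _
      rw [← h3]
      ring
    rw [h1, Finset.sum_congr rfl fun C _ => h2 C, hart, neg_add_cancel]
  have hex : ∀ k, ∃ yk : HeightOneSpectrum (𝓞 (Fk k)) → G, BaseChange x yk := by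
    intro k
    refine ⟨fun w => if h : ∃ v : HeightOneSpectrum (𝓞 K),
      w.asIdeal.comap (algebraMap (𝓞 K) (𝓞 (Fk k))) = v.asIdeal then x h.choose else 1, ∅,
      fun w _ v hv _ => ⟨1, ?_⟩⟩
    have hw : ∃ v : HeightOneSpectrum (𝓞 K), w.asIdeal.comap (algebraMap (𝓞 K) (𝓞 (Fk k))) =
      v.asIdeal := ⟨v, hv⟩
    simp only
    rw [dif_pos hw]
    have : hw.choose = v := HeightOneSpectrum.ext (hw.choose_spec.symm.trans hv)
    rw [this]
    group
  choose yC hyC using fun C => hex (some C)
  let yk : ∀ k, HeightOneSpectrum (𝓞 (Fk k)) → G := fun k => match k with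
    | none => y
    | some C => yC C
  have hyk : ∀ k, BaseChange x (yk k) := by
    intro k
    cases k with
    | none => exact hy
    | some C => exact hyC C
  have hR := relations (μ := μ) (p := p) hN hp hpo Fk c hrel hyk hf hcl
  have hterm : ∀ C, Tendsto (fun n => c (some C) * (avg (fun w => f (yk (some C) w)) n -
      expected μ p (Fk (some C)) f)) atTop (𝓝 0) := by
    intro C
    by_cases hC : IsCyclic C
    · obtain ⟨e, he⟩ := (Subgroup.isCyclic_iff_exists_zpowers_eq_top C).1 hC
      obtain ⟨γ, rfl⟩ := QuotientGroup.mk_surjective e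
      have h1 : Fd C = fixedIn M γ := by
        rw [← fixedField_comap U rfl γ, he]
      have h2 : HoldsOver μ p x (Fd C) := by
        have hgen : ∀ F' : IntermediateField K (AlgebraicClosure K), F' = fixedIn M γ →
            ∀ [NumberField F'], HoldsOver μ p x F' := by
          rintro F' rfl _
          exact h γ
        exact hgen (Fd C) h1
      have h3 := (h2 (yC C) (hyC C) f hf hcl).sub_const (expected μ p (Fd C) f)
      rw [sub_self] at h3
      have h4 := h3.const_mul (c (some C))
      rw [mul_zero] at h4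
      exact h4
    · have h1 : c (some C) = 0 := by
        change a C * cd C = 0
        rw [ha C hC, zero_mul]
      simp only [h1, zero_mul]
      exact tendsto_const_nhds
  have hsum : Tendsto (fun n => ∑ C, c (some C) * (avg (fun w => f (yk (some C) w)) n -
      expected μ p (Fk (some C)) f)) atTop (𝓝 (∑ _C : Subgroup (GK K ⧸ U), (0 : ℝ))) :=
    tendsto_finsetSum _ fun C _ => hterm C
  rw [Finset.sum_const_zero] at hsum
  have h5 := hR.sub hsum
  rw [sub_zero] at h5
  have hB0 : c none ≠ 0 := by
    change -cd B ≠ 0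
    have : 0 < (Finset.univ.filter fun e => e ∈ B).card :=
      Finset.card_pos.2 ⟨1, Finset.mem_filter.2 ⟨Finset.mem_univ _, B.one_mem⟩⟩
    have h6 : (0 : ℝ) < cd B := Nat.cast_pos.2 this
    linarith
  have h6 : Tendsto (fun n => c none * (avg (fun w => f (y w)) n - expected μ p F f)) atTop
      (𝓝 0) := by
    refine h5.congr fun n => ?_
    rw [Fintype.sum_option, add_sub_cancel_right]
    rfl
  have h7 := (h6.const_mul (c none)⁻¹).add_const (expected μ p F f)
  rw [mul_zero, zero_add] at h7
  refine h7.congr fun n => ?_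
  rw [inv_mul_cancel_left₀ hB0, sub_add_cancel]

end

end Pool.Agent.Q12.ST.Des
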