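import Pool.Agent.Q11.ST.Desc
import Pool.Agent.W353.NF.Burn
import Pool.Agent.Q12.ST.Artin
import Pool.Agent.Q12.ST.Comp

/-!
# Relations between the averages over several number fields, and descent
-/

set_option autoImplicit false
set_option linter.unusedSectionVars false

namespace Pool.Agent.Q12.ST.Des

open Filter Topology NumberField IsDedekindDomain MeasureTheory
open Pool.Agent.W401.Cheb
open Pool.Agent.W540.BE (exists_isFrob)
open Pool.Agent.W353.SP (EN Bd mnN)
open Pool.Agent.W353.NF (vx fixn fixn_le fixn_mul_ker push_fix act act_apply act_trans ker_act_open)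
open Pool.Agent.W353.TP (HX push qh)
open Pool.Agent.Q11.ST (mH cn cn_abs mH_congr_fin EN_mH avg avg_bc BaseChange bdf)
open Pool.Agent.Q12.ST.Comp

section
variable {K : Type} [Field K] [NumberField K] {F : Type} [Field F] [NumberField F] [Algebra K F]

/-- counting homomorphisms and fixed embeddings -/
theorem mH_fix {T : HeightOneSpectrum (𝓞 K) → ℝ} (hT : Bd T) (σ : HeightOneSpectrum (𝓞 K) → GK K)
    (hσ : ∀ v, IsFrob v (σ v)) :
    Tendsto (fun Y => mH (fun u : HX K => T (vx u) * cn K F u) Y -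
      EN K Y (fun v => T v * fixn K F (σ v))) atTop (𝓝 0) := by
  obtain ⟨B, hB⟩ := hT
  obtain ⟨S, hS⟩ := push_fix K F
  set D : ℝ := (Module.finrank ℚ F : ℝ) with hD
  have hD0 : 0 ≤ D := Nat.cast_nonneg _
  have hfix : ∀ g : GK K, |(fixn K F g : ℝ)| ≤ D := fun g => by
    rw [abs_of_nonneg (Nat.cast_nonneg _)]
    exact fixn_le g
  have h1 : Tendsto (fun Y => mH (fun u : HX K => T (vx u) * cn K F u) Y -
      mH (fun u : HX K => T (vx u) * fixn K F (σ (vx u))) Y) atTop (𝓝 0) := by
    refine mH_congr_fin S (B := |B| * (D + D)) (fun u => ?_) fun u hu => ?_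
    · rw [← mul_sub, abs_mul]
      refine mul_le_mul ((hB _).trans (le_abs_self B)) ?_ (abs_nonneg _) (abs_nonneg _)
      exact (abs_sub _ _).trans (add_le_add (cn_abs u) (hfix _))
    · rw [show cn K F u = fixn K F (σ (vx u)) from hS u hu _ (hσ _)]
  have hbd : Bd fun v => T v * fixn K F (σ v) :=
    Bd.mul (f := T) (g := fun v => (fixn K F (σ v) : ℝ)) ⟨B, hB⟩ ⟨D, fun v => hfix _⟩
  have h2 := EN_mH hbd
  have h3 := h1.sub h2
  rw [sub_zero] at h3
  refine h3.congr fun Y => ?_
  ring

variable {G : Type} [Group G] [TopologicalSpace G] [CompactSpace G]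
  {x : HeightOneSpectrum (𝓞 K) → G} {f : G → ℝ} {y : HeightOneSpectrum (𝓞 F) → G}

/-- averages over `F` as averages over `K` -/
theorem avg_fix (hy : BaseChange x y) (hf : Continuous f) (hcl : ∀ g h, f (h * g * h⁻¹) = f g)
    (σ : HeightOneSpectrum (𝓞 K) → GK K) (hσ : ∀ v, IsFrob v (σ v)) :
    Tendsto (fun N => avg (fun w => f (y w)) N -
      EN K N (fun v => f (x v) * fixn K F (σ v))) atTop (𝓝 0) := by
  obtain ⟨B, hB⟩ := bdf hf
  have h1 := avg_bc hy hf hcl
  have h2 := mH_fix (F := F) (T := fun v => f (x v)) ⟨B, fun v => hB _⟩ σ hσ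
  have h3 := h1.add h2
  rw [add_zero] at h3
  refine h3.congr fun N => ?_
  ring

end

section
variable {K : Type} [Field K] [NumberField K]

/-- linear combinations under the mean value -/
theorem EN_sum {κ : Type*} (S : Finset κ) (c : κ → ℝ) (g : κ → HeightOneSpectrum (𝓞 K) → ℝ) (n : ℕ) :
    EN K n (fun v => ∑ k ∈ S, c k * g k v) = ∑ k ∈ S, c k * EN K n (g k) := by
  unfold EN
  rw [Finset.sum_comm, Finset.sum_div]
  refine Finset.sum_congr rfl fun k _ => ?_
  rw [← Finset.mul_sum, mul_div_assoc]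

variable {F : IntermediateField K (AlgebraicClosure K)} [NumberField F]

/-- the action factors through a quotient -/
noncomputable def phi (F : IntermediateField K (AlgebraicClosure K)) [NumberField F]
    (W : Subgroup (GK K)) [W.Normal] (hW : W ≤ (act K F).ker) :
    GK K ⧸ W →* Equiv.Perm (F →ₐ[K] AlgebraicClosure K) :=
  QuotientGroup.lift W (act K F) hW

theorem phi_mk (W : Subgroup (GK K)) [W.Normal] (hW : W ≤ (act K F).ker) (γ : GK K) :
    phi F W hW (QuotientGroup.mk γ) = act K F γ := rfl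

theorem phi_trans (W : Subgroup (GK K)) [W.Normal] (hW : W ≤ (act K F).ker)
    (i j : F →ₐ[K] AlgebraicClosure K) : ∃ e, phi F W hW e i = j := by
  obtain ⟨σ, hσ⟩ := act_trans (K := K) (F := F) i j
  exact ⟨QuotientGroup.mk σ, hσ⟩

/-- the stabiliser of the inclusion -/
theorem act_val (γ : GK K) : act K F γ F.val = F.val ↔ γ ∈ F.fixingSubgroup := by
  rw [act_apply, IntermediateField.mem_fixingSubgroup_iff]
  constructor
  · intro h z hz
    exact DFunLike.congr_fun h (⟨z, hz⟩ : F)
  · intro h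
    exact AlgHom.ext fun z => h z.1 z.2

theorem fixn_phi (W : Subgroup (GK K)) [W.Normal] (hW : W ≤ (act K F).ker)
    [DecidableEq (F →ₐ[K] AlgebraicClosure K)] (γ : GK K) :
    (Finset.univ.filter fun i => phi F W hW (QuotientGroup.mk γ) i = i).card = fixn K F γ := by
  unfold fixn
  rw [Nat.card_eq_fintype_card, Fintype.card_subtype]
  rfl

/-- a common open normal subgroup for finitely many fields -/
theorem common {κ : Type} [Finite κ] (F : κ → IntermediateField K (AlgebraicClosure K))
    [∀ k, NumberField (F k)] (N : Subgroup (GK K)) [N.Normal] (hN : IsOpen (N : Set (GK K))) :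
    ∃ W : Subgroup (GK K), W.Normal ∧ IsOpen (W : Set (GK K)) ∧ W ≤ N ∧
      ∀ k, W ≤ (act K (F k)).ker := by
  refine ⟨N ⊓ ⨅ k, (act K (F k)).ker, ?_, ?_, inf_le_left, fun k =>
    inf_le_right.trans (iInf_le _ k)⟩
  · have h1 : (⨅ k, (act K (F k)).ker).Normal := by
      constructor
      intro n hn g
      rw [Subgroup.mem_iInf] at hn ⊢
      exact fun k => (inferInstance : (act K (F k)).ker.Normal).conj_mem n (hn k) g
    exact Subgroup.normal_inf_normal _ _
  · rw [Subgroup.coe_inf, Subgroup.coe_iInf]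
    exact hN.inter (isOpen_iInter_of_finite fun k => ker_act_open K (F k))

end

section
variable {K : Type} [Field K] [NumberField K]
variable {G : Type} [Group G] [TopologicalSpace G] [IsTopologicalGroup G] [CompactSpace G]
  [MeasurableSpace G] [BorelSpace G] (μ : Measure G) [IsProbabilityMeasure μ]
  [μ.IsMulLeftInvariant] [μ.IsMulRightInvariant] {N : Subgroup (GK K)} [N.Normal]
  (p : G →* GK K ⧸ N)

/-- the part of `G` belonging to the field `F` -/
def part (F : IntermediateField K (AlgebraicClosure K)) : Set G :=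
  {g | ∃ γ ∈ F.fixingSubgroup, p g = QuotientGroup.mk γ}

/-- the expected average over `F` -/
noncomputable def expected (F : IntermediateField K (AlgebraicClosure K)) (f : G → ℝ) : ℝ :=
  ⨍ g in part p F, f g ∂μ

variable {μ p}

open Classical in
/-- **The expected average in terms of fixed points.** -/
theorem expected_eq (hN : IsOpen (N : Set (GK K))) (hp : Function.Surjective p)
    (hpo : IsOpen (p.ker : Set G)) (F : IntermediateField K (AlgebraicClosure K)) [NumberField F]
    (W : Subgroup (GK K)) [W.Normal] (hWo : IsOpen (W : Set (GK K))) (hWN : W ≤ N)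
    (hWF : W ≤ (act K F).ker) [Fintype (GK K ⧸ W)] [Fintype (GK K ⧸ N)] {f : G → ℝ}
    (hf : Integrable f μ) (hcl : ∀ g h, f (h * g * h⁻¹) = f g) :
    expected μ p F f = (Fintype.card (GK K ⧸ W) : ℝ)⁻¹ * ∑ e : GK K ⧸ W,
      cAvg μ p f (QuotientGroup.map W N (MonoidHom.id _) hWN e) * fixn K F e.out := by
  set q : GK K ⧸ W →* GK K ⧸ N := QuotientGroup.map W N (MonoidHom.id _) hWN with hq
  let S : Subgroup (GK K ⧸ W) := F.fixingSubgroup.map (QuotientGroup.mk' W)
  have hWS : W ≤ F.fixingSubgroup := fun w hw => (act_val w).1 (by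
    have := hWF hw
    rw [MonoidHom.mem_ker] at this
    rw [this]
    rfl)
  have hSiff : ∀ e : GK K ⧸ W, e ∈ S ↔ phi F W hWF e F.val = F.val := by
    intro e
    obtain ⟨γ, rfl⟩ := QuotientGroup.mk_surjective e
    rw [phi_mk, act_val]
    constructor
    · rintro ⟨τ, hτ, hτγ⟩
      have h1 : τ⁻¹ * γ ∈ W := QuotientGroup.eq.1 hτγ
      have h2 := F.fixingSubgroup.mul_mem hτ (hWS h1)
      rwa [mul_inv_cancel_left] at h2
    · intro h
      exact ⟨γ, h, rfl⟩
  have hpart : part p F = {g | ∃ e ∈ S, p g = q e} := by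
    ext g
    constructor
    · rintro ⟨γ, hγ, hg⟩
      exact ⟨QuotientGroup.mk γ, ⟨γ, hγ, rfl⟩, hg⟩
    · rintro ⟨e, ⟨γ, hγ, rfl⟩, hg⟩
      exact ⟨γ, hγ, hg⟩
  unfold expected
  rw [hpart, part_avg μ q S hp hpo hf]
  have hψ : ∀ e z : GK K ⧸ W, cAvg μ p f (q (z * e * z⁻¹)) = cAvg μ p f (q e) := by
    intro e z
    rw [map_mul, map_mul, map_inv, cAvg_conj μ hp hpo hcl]
  have h1 := Artin.sum_fix (phi F W hWF) (phi_trans W hWF) F.val (ψ := fun e => cAvg μ p f (q e))
    fun e z => hψ e z
  have h2 := Artin.card_stab (phi F W hWF) (phi_trans W hWF) F.val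
  have h3 : ∀ e : GK K ⧸ W,
      ((Finset.univ.filter fun i => phi F W hWF e i = i).card : ℝ) = fixn K F e.out := by
    intro e
    have h5 := fixn_phi (F := F) W hWF e.out
    rw [QuotientGroup.out_eq'] at h5
    convert congrArg (Nat.cast : ℕ → ℝ) h5
  simp only [h3] at h1
  have hST : (Finset.univ.filter fun e : GK K ⧸ W => e ∈ S) =
      Finset.univ.filter fun e => phi F W hWF e F.val = F.val :=
    Finset.filter_congr fun e _ => hSiff e
  rw [h1, hST, ← h2]
  have h4 : (Fintype.card (F →ₐ[K] AlgebraicClosure K) : ℝ) ≠ 0 := by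
    have : Nonempty (F →ₐ[K] AlgebraicClosure K) := ⟨F.val⟩
    exact_mod_cast Fintype.card_ne_zero
  push_cast
  rw [mul_inv, mul_mul_mul_comm, inv_mul_cancel₀ h4, one_mul]

/-- **Relations.** -/
theorem relations (hN : IsOpen (N : Set (GK K))) (hp : Function.Surjective p)
    (hpo : IsOpen (p.ker : Set G)) {κ : Type} [Fintype κ]
    (F : κ → IntermediateField K (AlgebraicClosure K)) [∀ k, NumberField (F k)] (c : κ → ℝ)
    (hc : ∀ γ : GK K, ∑ k, c k * fixn K (F k) γ = 0) {x : HeightOneSpectrum (𝓞 K) → G}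
    {y : ∀ k, HeightOneSpectrum (𝓞 (F k)) → G} (hy : ∀ k, BaseChange x (y k)) {f : G → ℝ}
    (hf : Continuous f) (hcl : ∀ g h, f (h * g * h⁻¹) = f g) :
    Tendsto (fun n => ∑ k, c k * (avg (fun w => f (y k w)) n - expected μ p (F k) f)) atTop
      (𝓝 0) := by
  classical
  choose σ hσ using exists_isFrob (F := K)
  have hfi : Integrable f μ := by
    obtain ⟨B, hB⟩ := bdf hf
    exact Integrable.of_bound hf.aestronglyMeasurable B (Filter.Eventually.of_forall fun g => by
      rw [Real.norm_eq_abs]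
      exact hB g)
  obtain ⟨W, hWn, hWo, hWN, hWF⟩ := common F N hN
  have hfinW : Finite (GK K ⧸ W) := Subgroup.quotient_finite_of_isOpen W hWo
  have hfinN : Finite (GK K ⧸ N) := Subgroup.quotient_finite_of_isOpen N hN
  let _ : Fintype (GK K ⧸ W) := Fintype.ofFinite _
  let _ : Fintype (GK K ⧸ N) := Fintype.ofFinite _
  have hE : ∑ k, c k * expected μ p (F k) f = 0 := by
    have h1 : ∀ k, c k * expected μ p (F k) f = (Fintype.card (GK K ⧸ W) : ℝ)⁻¹ *
        ∑ e : GK K ⧸ W, cAvg μ p f (QuotientGroup.map W N (MonoidHom.id _) hWN e) *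
          (c k * fixn K (F k) e.out) := by
      intro k
      rw [expected_eq hN hp hpo (F k) W hWo hWN (hWF k) hfi hcl, mul_left_comm, Finset.mul_sum]
      congr 1
      exact Finset.sum_congr rfl fun e _ => by ring
    rw [Finset.sum_congr rfl fun k _ => h1 k, ← Finset.mul_sum, Finset.sum_comm]
    have h2 : ∀ e : GK K ⧸ W, ∑ k, cAvg μ p f (QuotientGroup.map W N (MonoidHom.id _) hWN e) *
        (c k * fixn K (F k) e.out) = 0 := by
      intro e
      rw [← Finset.mul_sum, hc, mul_zero]
    rw [Finset.sum_congr rfl fun e _ => h2 e, Finset.sum_const_zero, mul_zero]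
  have h3 : Tendsto (fun n => ∑ k, c k * (avg (fun w => f (y k w)) n -
      EN K n (fun v => f (x v) * fixn K (F k) (σ v)))) atTop (𝓝 (∑ k, c k * 0)) :=
    tendsto_finsetSum _ fun k _ => (avg_fix (hy k) hf hcl σ hσ).const_mul (c k)
  simp only [mul_zero, Finset.sum_const_zero] at h3
  refine h3.congr fun n => ?_
  have h4 : ∑ k, c k * EN K n (fun v => f (x v) * fixn K (F k) (σ v)) = 0 := by
    rw [← EN_sum]
    have h5 : (fun v => ∑ k, c k * (f (x v) * fixn K (F k) (σ v))) =
        fun _ : HeightOneSpectrum (𝓞 K) => (0 : ℝ) := by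
      funext v
      have h6 := hc (σ v)
      calc ∑ k, c k * (f (x v) * fixn K (F k) (σ v)) =
          f (x v) * ∑ k, c k * (fixn K (F k) (σ v) : ℝ) := by
            rw [Finset.mul_sum]
            exact Finset.sum_congr rfl fun k _ => by ring
        _ = 0 := by rw [h6, mul_zero]
    rw [h5]
    unfold EN
    simp
  simp only [mul_sub, Finset.sum_sub_distrib, hE, h4]

/-- the law over `F` (for the class functions of `G`) -/
def HoldsOver (μ : Measure G) (p : G →* GK K ⧸ N) (x : HeightOneSpectrum (𝓞 K) → G)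
    (F : IntermediateField K (AlgebraicClosure K)) [NumberField F] : Prop :=
  ∀ y : HeightOneSpectrum (𝓞 F) → G, BaseChange x y → ∀ f : G → ℝ, Continuous f →
    (∀ g h, f (h * g * h⁻¹) = f g) → Tendsto (avg fun w => f (y w)) atTop (𝓝 (expected μ p F f))

end

end Pool.Agent.Q12.ST.Des
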