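import Pool.Agent.Q12.ST.Avg
import Pool.Agent.W540.BE.Freq

set_option autoImplicit false

/-!
# Frobenius elements in pairwise disjoint extensions
-/

namespace Pool.Agent.Q12.ST

open Filter Topology ComplexConjugate MeasureTheory NumberField IsDedekindDomain
  Pool.Agent.W401.Cheb Pool.Agent.W540.BE

section

variable {K : Type} [Field K] [NumberField K]

theorem PV_upto (N : ℕ) : PV K N = upto K N := by
  ext v
  rw [mem_PV, mem_upto]
  rfl

theorem card_PV : Tendsto (fun N => ((PV K N).card : ℂ) / (Nat.primeCounting N : ℂ)) atTop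
    (𝓝 1) := by
  have hfin : Finite (GK K ⧸ (⊤ : Subgroup (GK K))) :=
    Subgroup.quotient_finite_of_isOpen _ isOpen_univ
  choose σ hσ using exists_isFrob (F := K)
  have h1 := cheb_mean (⊤ : Subgroup (GK K)) isOpen_univ (fun _ => (1 : ℂ)) (fun _ _ => rfl) σ hσ
  have h2 : (Nat.card (GK K ⧸ (⊤ : Subgroup (GK K))) : ℂ)⁻¹ *
      ∑ᶠ _ : GK K ⧸ (⊤ : Subgroup (GK K)), (1 : ℂ) = 1 := by
    classical
    let _ : Fintype (GK K ⧸ (⊤ : Subgroup (GK K))) := Fintype.ofFinite _
    rw [finsum_eq_sum_of_fintype, Finset.sum_const, Finset.card_univ, nsmul_eq_mul, mul_one,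
      Nat.card_eq_fintype_card]
    exact inv_mul_cancel₀ (by exact_mod_cast Fintype.card_ne_zero)
  rw [h2] at h1
  refine h1.congr fun N => ?_
  rw [PV_upto, Finset.sum_const, nsmul_eq_mul, mul_one]

/-- **Chebotarev's theorem** for a homomorphism onto a finite group. -/
theorem ex_frob {H : Type} [Group H] [Finite H] (θ : GK K →* H) (hθ : IsOpen (θ.ker : Set (GK K)))
    (hs : Function.Surjective θ) (ψ : H → ℂ) (hψ : ∀ a g, ψ (g * a * g⁻¹) = ψ a)
    (σ : HeightOneSpectrum (𝓞 K) → GK K) (hσ : ∀ v, IsFrob v (σ v)) :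
    Tendsto (fun N => ex (PV K N) fun v => ψ (θ (σ v))) atTop
      (𝓝 ((Nat.card H : ℂ)⁻¹ * ∑ᶠ h, ψ h)) := by
  have hfin : Finite (GK K ⧸ θ.ker) := Subgroup.quotient_finite_of_isOpen _ hθ
  let e : GK K ⧸ θ.ker ≃* H := QuotientGroup.quotientKerEquivOfSurjective θ hs
  have he : ∀ g : GK K, e (QuotientGroup.mk g) = θ g := fun g => rfl
  have h1 := cheb_mean θ.ker hθ (fun q => ψ (e q)) (fun a g => by
    rw [map_mul, map_mul, map_inv, hψ]) σ hσ
  have h2 : ∑ᶠ q, ψ (e q) = ∑ᶠ h, ψ h := finsum_comp_equiv e.toEquiv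
  rw [h2, Nat.card_congr e.toEquiv] at h1
  have h3 := h1.div (card_PV (K := K)) one_ne_zero
  rw [div_one] at h3
  refine h3.congr' ?_
  have h4 : ∀ᶠ N : ℕ in atTop, (Nat.primeCounting N : ℂ) ≠ 0 := by
    have h5 := Nat.tendsto_primeCounting.eventually_gt_atTop 0
    filter_upwards [h5] with N hN
    exact_mod_cast hN.ne'
  filter_upwards [h4] with N hN
  rw [Pi.div_apply]
  unfold ex
  rw [← PV_upto, div_div_div_cancel_right₀ hN]
  rfl

end

section

variable {K : Type} [Field K] [NumberField K] {H : Type} [Group H] [Fintype H]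
  [TopologicalSpace (ConjClasses H)] [DiscreteTopology (ConjClasses H)]
  [MeasurableSpace (ConjClasses H)] [BorelSpace (ConjClasses H)]

/-- the uniform measure on the conjugacy classes -/
noncomputable def mH (H : Type) [Group H] [Fintype H] [MeasurableSpace (ConjClasses H)] :
    Measure (ConjClasses H) :=
  (Fintype.card H : ENNReal)⁻¹ • ∑ h : H, Measure.dirac (ConjClasses.mk h)

instance : IsProbabilityMeasure (mH H) where
  measure_univ := by
    unfold mH
    rw [Measure.smul_apply, Measure.finsetSum_apply, Finset.sum_congr rfl fun h _ =>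
      Measure.dirac_apply_of_mem (Set.mem_univ _)]
    rw [Finset.sum_const, Finset.card_univ, nsmul_eq_mul, mul_one, smul_eq_mul]
    exact ENNReal.inv_mul_cancel (by simp) (ENNReal.natCast_ne_top _)

theorem int_mH (φ : ConjClasses H → ℂ) :
    ∫ c, φ c ∂(mH H) = (Nat.card H : ℂ)⁻¹ * ∑ h : H, φ (ConjClasses.mk h) := by
  unfold mH
  have hi : ∀ h ∈ (Finset.univ : Finset H), Integrable φ (Measure.dirac (ConjClasses.mk h)) :=
    fun h _ => integrable_dirac' (continuous_of_discreteTopology.stronglyMeasurable) (by simp)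
  rw [integral_smul_measure, integral_finsetSum_measure hi, Complex.real_smul]
  congr 1
  · rw [ENNReal.toReal_inv, ENNReal.toReal_natCast, Nat.card_eq_fintype_card]
    push_cast
    rfl
  · refine Finset.sum_congr rfl fun h _ => ?_
    exact integral_dirac' _ _ continuous_of_discreteTopology.stronglyMeasurable

/-- **Pairwise independence** of the Frobenius classes. -/
theorem pi_frob {ι : Type} (ξ : ι → GK K →* H) (hξ : ∀ i, IsOpen ((ξ i).ker : Set (GK K)))
    (h1 : ∀ i, Function.Surjective (ξ i))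
    (h2 : ∀ i j, i ≠ j → Function.Surjective ((ξ i).prod (ξ j)))
    (σ : HeightOneSpectrum (𝓞 K) → GK K) (hσ : ∀ v, IsFrob v (σ v)) :
    PI (PV K) (fun i v => ConjClasses.mk (ξ i (σ v))) (fun _ => mH H) where
  ne := PV_ne
  one i φ _ := by
    have h3 := ex_frob (ξ i) (hξ i) (h1 i) (fun h => φ (ConjClasses.mk h)) (fun a g => by
      congr 1
      exact ConjClasses.mk_eq_mk_iff_isConj.2 (isConj_iff.2 ⟨g⁻¹, by group⟩)) σ hσ
    rw [finsum_eq_sum_of_fintype, ← int_mH] at h3
    exact h3
  two i j hij φ ψ _ _ := by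
    have h0 : IsOpen (((ξ i).prod (ξ j)).ker : Set (GK K)) := by
      have e : (((ξ i).prod (ξ j)).ker : Set (GK K)) =
          ((ξ i).ker : Set (GK K)) ∩ ((ξ j).ker : Set (GK K)) := by
        ext g
        simp [MonoidHom.mem_ker]
      rw [e]
      exact (hξ i).inter (hξ j)
    have h3 := ex_frob ((ξ i).prod (ξ j)) h0 (h2 i j hij)
      (fun h => φ (ConjClasses.mk h.1) * ψ (ConjClasses.mk h.2)) (fun a g => by
      congr 2
      · exact ConjClasses.mk_eq_mk_iff_isConj.2 (isConj_iff.2 ⟨g.1⁻¹, by simp; group⟩)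
      · exact ConjClasses.mk_eq_mk_iff_isConj.2 (isConj_iff.2 ⟨g.2⁻¹, by simp; group⟩)) σ hσ
    rw [finsum_eq_sum_of_fintype, Fintype.sum_prod_type] at h3
    have e : (Nat.card (H × H) : ℂ)⁻¹ * ∑ x : H, ∑ y : H, φ (ConjClasses.mk x) *
        ψ (ConjClasses.mk y) = (∫ z, φ z ∂(mH H)) * ∫ z, ψ z ∂(mH H) := by
      rw [int_mH, int_mH, Nat.card_prod, ← Finset.sum_mul_sum]
      push_cast
      rw [mul_inv]
      ring
    rw [e] at h3
    exact h3

/-- the integral for the product measure -/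
theorem int_pi_mH {k : ℕ} (F : (Fin k → ConjClasses H) → ℂ) :
    ∫ z, F z ∂(Measure.pi fun _ : Fin k => mH H) =
      ((Nat.card H : ℂ) ^ k)⁻¹ * ∑ h : Fin k → H, F fun l => ConjClasses.mk (h l) := by
  classical
  let _ : Fintype (ConjClasses H) := Fintype.ofFinite _
  have hF : ∀ z, F z = ∑ c : Fin k → ConjClasses H, F c *
      ∏ l, (if z l = c l then (1 : ℂ) else 0) := by
    intro z
    rw [Finset.sum_eq_single z]
    · simp
    · intro c _ hc
      obtain ⟨l, hl⟩ := Function.ne_iff.1 hc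
      rw [Finset.prod_eq_zero (Finset.mem_univ l) (if_neg fun h => hl h.symm), mul_zero]
    · intro h
      exact absurd (Finset.mem_univ z) h
  have hc : ∀ c : Fin k → ConjClasses H, Continuous fun z : Fin k → ConjClasses H =>
      F c * ∏ l, (if z l = c l then (1 : ℂ) else 0) := fun c =>
    continuous_const.mul (continuous_finsetProd _ fun l _ =>
      (continuous_of_discreteTopology (f := fun z : ConjClasses H =>
        if z = c l then (1 : ℂ) else 0)).comp (continuous_apply l))
  have hi : ∀ c ∈ (Finset.univ : Finset (Fin k → ConjClasses H)),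
      Integrable (fun z : Fin k → ConjClasses H => F c * ∏ l, (if z l = c l then (1 : ℂ) else 0))
        (Measure.pi fun _ : Fin k => mH H) := fun c _ =>
    (hc c).integrable_of_hasCompactSupport (HasCompactSupport.of_compactSpace _)
  have e1 : ∫ z, F z ∂(Measure.pi fun _ : Fin k => mH H) =
      ∑ c : Fin k → ConjClasses H, F c * ∏ l, ∫ z, (if z = c l then (1 : ℂ) else 0) ∂(mH H) := by
    rw [show (fun z => F z) = fun z => ∑ c : Fin k → ConjClasses H, F c *
      ∏ l, (if z l = c l then (1 : ℂ) else 0) from funext hF, integral_finsetSum _ hi]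
    refine Finset.sum_congr rfl fun c _ => ?_
    rw [integral_const_mul]
    congr 1
    exact integral_fintype_prod_eq_prod (𝕜 := ℂ) (μ := fun _ : Fin k => mH H)
      (f := fun l z => if z = c l then (1 : ℂ) else 0)
  rw [e1]
  have e2 : ∀ c : Fin k → ConjClasses H, F c * ∏ l, ∫ z, (if z = c l then (1 : ℂ) else 0) ∂(mH H) =
      ((Nat.card H : ℂ) ^ k)⁻¹ * ∑ h : Fin k → H,
        F c * ∏ l, (if ConjClasses.mk (h l) = c l then (1 : ℂ) else 0) := by
    intro c
    have e3 : ∏ l, ∫ z, (if z = c l then (1 : ℂ) else 0) ∂(mH H) = ((Nat.card H : ℂ) ^ k)⁻¹ *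
        ∏ l, ∑ h : H, (if ConjClasses.mk h = c l then (1 : ℂ) else 0) := by
      rw [Finset.prod_congr rfl fun l _ => int_mH _, Finset.prod_mul_distrib, Finset.prod_const,
        Finset.card_univ, Fintype.card_fin, inv_pow]
    rw [e3, Finset.prod_univ_sum, Fintype.piFinset_univ, ← Finset.mul_sum]
    ring
  rw [Finset.sum_congr rfl fun c _ => e2 c, ← Finset.mul_sum, Finset.sum_comm]
  congr 1
  refine Finset.sum_congr rfl fun h _ => ?_
  rw [← hF]

end

end Pool.Agent.Q12.ST
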