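import Pool.Agent.Q12.ST.TupF

set_option autoImplicit false
set_option linter.unusedSectionVars false

/-!
# Tuples of members of pairwise independent families: general test functions

The constants do not depend on the family.
-/

namespace Pool.Agent.Q12.ST

open Filter Topology ComplexConjugate MeasureTheory

section

variable {Z : Type} [TopologicalSpace Z] [CompactSpace Z] [T2Space Z] [MeasurableSpace Z]
  [BorelSpace Z]

/-- **Tuples**, for continuous functions. -/
theorem tuples_genU [SecondCountableTopology Z] (k : ℕ)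
    {f : (Fin k → Z) → ℂ} (hf : Continuous f) {ε : ℝ} (hε : 0 < ε) :
    ∃ C : ℝ, ∀ (P ι : Type) [DecidableEq ι] (V : ℕ → Finset P) (x : ι → P → Z)
      (μ : ι → Measure Z) [∀ i, IsProbabilityMeasure (μ i)], PI V x μ →
      ∀ J : Finset ι, ∀ᶠ N in atTop, ∀ G : P → ℂ, (∀ v, ‖G v‖ ≤ 1) →
      (((Fintype.piFinset fun _ : Fin k => J).filter fun t =>
        ε < ‖ex (V N) (fun v => G v * f fun l => x (t l) v) -
          ex (V N) G * ∫ z, f z ∂(Measure.pi fun l => μ (t l))‖).card : ℝ) * J.card ≤
        C * (J.card : ℝ) ^ k := by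
  classical
  obtain ⟨g, ⟨A, _, c, φ, hφ, hg⟩, hfg⟩ := sp_dense hf (show 0 < ε / 4 by positivity)
  have hb : ∃ M : ℝ, 1 ≤ M ∧ ∀ a l z, ‖φ a l z‖ ≤ M := by
    obtain ⟨M, h1, h2⟩ := exists_bound (J := A × Fin k) (φ := fun p => φ p.1 p.2)
      fun p => hφ p.1 p.2
    exact ⟨M, h1, fun a l z => h2 (a, l) z⟩
  obtain ⟨M, hM1, hM⟩ := hb
  have hM0 : 0 < M := by linarith
  have hc : ∃ B : ℝ, 1 ≤ B ∧ ∀ a, ‖c a‖ ≤ B := by
    refine ⟨1 + ∑ a, ‖c a‖, ?_, fun a => ?_⟩
    · have := Finset.sum_nonneg fun a (_ : a ∈ Finset.univ) => norm_nonneg (c a)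
      linarith
    · have := Finset.single_le_sum (f := fun a => ‖c a‖) (fun a _ => norm_nonneg _)
        (Finset.mem_univ a)
      linarith
  obtain ⟨B, hB1, hB⟩ := hc
  have hB0 : 0 < B := by linarith
  set n : ℝ := (Fintype.card A : ℝ) + 1 with hn
  have hn0 : 0 < n := by positivity
  set θ : ℝ := ε / (2 * n * (B * M ^ k)) with hθ
  have hθ0 : 0 < θ := by positivity
  refine ⟨Fintype.card A * (2 * k ^ 3 / θ ^ 2), fun P ι _ V x μ _ h J => ?_⟩
  set φ' : A → Fin k → Z → ℂ := fun a l z => (M : ℂ)⁻¹ * φ a l z with hφ'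
  have hφc : ∀ a l, Continuous (φ' a l) := fun a l => continuous_const.mul (hφ a l)
  have h1 := fun a => h.tuplesF k (φ := φ' a) (hφc a) (fun l z => by
      change ‖(M : ℂ)⁻¹ * φ a l z‖ ≤ 1
      rw [norm_mul, norm_inv, Complex.norm_real, Real.norm_eq_abs, abs_of_pos hM0,
        inv_mul_le_iff₀ hM0, mul_one]
      exact hM a l z) hθ0 J
  have h2 := Filter.eventually_all.2 h1
  filter_upwards [h2] with N hN G hG
  have hMc : (M : ℂ) ≠ 0 := by exact_mod_cast hM0.ne'
  have hprod : ∀ a (z : Fin k → Z), ∏ l, φ a l (z l) = (M : ℂ) ^ k * ∏ l, φ' a l (z l) := by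
    intro a z
    rw [hφ']
    simp only
    rw [Finset.prod_mul_distrib, Finset.prod_const, Finset.card_univ, Fintype.card_fin, ← mul_assoc,
      ← mul_pow, mul_inv_cancel₀ hMc, one_pow, one_mul]
  -- the difference
  have hdiff : ∀ t : Fin k → ι, ‖ex (V N) (fun v => G v * f fun l => x (t l) v) -
      ex (V N) G * ∫ z, f z ∂(Measure.pi fun l => μ (t l))‖ ≤
      (∑ a, (B * M ^ k) * ‖ex (V N) (fun v => G v * ∏ l, φ' a l (x (t l) v)) -
        ex (V N) G * ∏ l, ∫ z, φ' a l z ∂μ (t l)‖) + ε / 2 := by
    intro t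
    set π := Measure.pi fun l => μ (t l) with hπ
    have hgc : Continuous g := by
      have : g = fun z => ∑ a, c a * ∏ i, φ a i (z i) := funext hg
      rw [this]
      exact continuous_finsetSum _ fun a _ => continuous_const.mul
        (continuous_finsetProd _ fun i _ => (hφ a i).comp (continuous_apply i))
    have hint : ∀ F : (Fin k → Z) → ℂ, Continuous F → Integrable F π := fun F hF =>
      hF.integrable_of_hasCompactSupport (HasCompactSupport.of_compactSpace F)
    have e1 : ∫ z, g z ∂π = ∑ a, (c a * (M : ℂ) ^ k) * ∏ l, ∫ z, φ' a l z ∂μ (t l) := by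
      have e2 : ∀ z, g z = ∑ a, (c a * (M : ℂ) ^ k) * ∏ l, φ' a l (z l) := by
        intro z
        rw [hg]
        exact Finset.sum_congr rfl fun a _ => by rw [hprod]; ring
      have hi : ∀ a ∈ (Finset.univ : Finset A), Integrable
          (fun z : Fin k → Z => (c a * (M : ℂ) ^ k) * ∏ l, φ' a l (z l)) π := fun a _ =>
        hint _ (continuous_const.mul
          (continuous_finsetProd _ fun i _ => (hφc a i).comp (continuous_apply i)))
      simp only [e2]
      rw [integral_finsetSum _ hi]
      refine Finset.sum_congr rfl fun a _ => ?_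
      rw [integral_const_mul, hπ, integral_fintype_prod_eq_prod]
    have e3 : ex (V N) (fun v => G v * f fun l => x (t l) v) - ex (V N) G * ∫ z, f z ∂π =
        (∑ a, (c a * (M : ℂ) ^ k) * (ex (V N) (fun v => G v * ∏ l, φ' a l (x (t l) v)) -
          ex (V N) G * ∏ l, ∫ z, φ' a l z ∂μ (t l))) +
        ((ex (V N) fun v => G v * (f (fun l => x (t l) v) - g fun l => x (t l) v)) -
          ex (V N) G * ((∫ z, f z ∂π) - ∫ z, g z ∂π)) := by
      have e4 : (ex (V N) fun v => G v * g fun l => x (t l) v) =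
          ∑ a, (c a * (M : ℂ) ^ k) * ex (V N) (fun v => G v * ∏ l, φ' a l (x (t l) v)) := by
        have : (fun v => G v * g fun l => x (t l) v) = fun v => ∑ a, (c a * (M : ℂ) ^ k) *
            (G v * ∏ l, φ' a l (x (t l) v)) := by
          funext v
          rw [hg, Finset.mul_sum]
          exact Finset.sum_congr rfl fun a _ => by rw [hprod]; ring
        rw [this, ex_sum]
        exact Finset.sum_congr rfl fun a _ => ex_mul _ _ _
      have e5 : (ex (V N) fun v => G v * (f (fun l => x (t l) v) - g fun l => x (t l) v)) =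
          (ex (V N) fun v => G v * f fun l => x (t l) v) -
          ex (V N) fun v => G v * g fun l => x (t l) v := by
        rw [← ex_sub]
        congr 1
        funext v
        ring
      have e6 : ∑ a, (c a * (M : ℂ) ^ k) * (ex (V N) (fun v => G v * ∏ l, φ' a l (x (t l) v)) -
          ex (V N) G * ∏ l, ∫ z, φ' a l z ∂μ (t l)) =
          (ex (V N) fun v => G v * g fun l => x (t l) v) - ex (V N) G * ∫ z, g z ∂π := by
        rw [e4, e1, Finset.mul_sum, ← Finset.sum_sub_distrib]
        exact Finset.sum_congr rfl fun a _ => by ring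
      rw [e5, e6]
      ring
    rw [e3]
    refine (norm_add_le _ _).trans (add_le_add ?_ ?_)
    · refine (norm_sum_le _ _).trans (Finset.sum_le_sum fun a _ => ?_)
      rw [norm_mul, norm_mul, norm_pow, Complex.norm_real, Real.norm_eq_abs, abs_of_pos hM0]
      exact mul_le_mul_of_nonneg_right (mul_le_mul_of_nonneg_right (hB a) (by positivity))
        (norm_nonneg _)
    · refine (norm_sub_le _ _).trans ?_
      have h5 := norm_ex_le (V N) (φ := fun v => G v * (f (fun l => x (t l) v) -
          g fun l => x (t l) v)) (C := ε / 4) (by positivity) fun v => by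
        rw [norm_mul]
        calc ‖G v‖ * ‖f (fun l => x (t l) v) - g fun l => x (t l) v‖ ≤ 1 * (ε / 4) :=
              mul_le_mul (hG v) (hfg _) (norm_nonneg _) zero_le_one
          _ = ε / 4 := one_mul _
      have h6 : ‖(∫ z, f z ∂π) - ∫ z, g z ∂π‖ ≤ ε / 4 := by
        rw [← integral_sub (hint f hf) (hint g hgc)]
        have := norm_integral_le_of_norm_le_const (μ := π) (C := ε / 4)
          (Filter.Eventually.of_forall hfg)
        simpa using this
      have h7 := norm_ex_le (V N) (φ := G) (C := 1) zero_le_one hG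
      have h8 : ‖ex (V N) G * ((∫ z, f z ∂π) - ∫ z, g z ∂π)‖ ≤ ε / 4 := by
        rw [norm_mul]
        calc ‖ex (V N) G‖ * ‖(∫ z, f z ∂π) - ∫ z, g z ∂π‖ ≤ 1 * (ε / 4) :=
              mul_le_mul h7 h6 (norm_nonneg _) zero_le_one
          _ = ε / 4 := one_mul _
      linarith
  have hsub : ((Fintype.piFinset fun _ : Fin k => J).filter fun t =>
        ε < ‖ex (V N) (fun v => G v * f fun l => x (t l) v) -
          ex (V N) G * ∫ z, f z ∂(Measure.pi fun l => μ (t l))‖) ⊆
      Finset.univ.biUnion fun a => (Fintype.piFinset fun _ : Fin k => J).filter fun t =>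
        θ < ‖ex (V N) (fun v => G v * ∏ l, φ' a l (x (t l) v)) -
          ex (V N) G * ∏ l, ∫ z, φ' a l z ∂μ (t l)‖ := by
    intro t ht
    obtain ⟨htJ, ht⟩ := Finset.mem_filter.1 ht
    rw [Finset.mem_biUnion]
    by_contra hcon
    push Not at hcon
    have h3 : ∀ a, (B * M ^ k) * ‖ex (V N) (fun v => G v * ∏ l, φ' a l (x (t l) v)) -
        ex (V N) G * ∏ l, ∫ z, φ' a l z ∂μ (t l)‖ ≤ (B * M ^ k) * θ := by
      intro a
      have h4 := hcon a (Finset.mem_univ a)
      rw [Finset.mem_filter, not_and] at h4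
      exact mul_le_mul_of_nonneg_left (not_lt.1 (h4 htJ)) (by positivity)
    have h5 := Finset.sum_le_sum fun a (_ : a ∈ Finset.univ) => h3 a
    rw [Finset.sum_const, nsmul_eq_mul, Finset.card_univ] at h5
    have h6 : (B * M ^ k) * θ = ε / (2 * n) := by
      rw [hθ]
      field_simp
    have h7 : (Fintype.card A : ℝ) * (ε / (2 * n)) < ε / 2 := by
      have h8 : (Fintype.card A : ℝ) < n := by rw [hn]; linarith
      calc (Fintype.card A : ℝ) * (ε / (2 * n)) < n * (ε / (2 * n)) :=
            mul_lt_mul_of_pos_right h8 (by positivity)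
        _ = ε / 2 := by field_simp
    rw [h6] at h5
    have h8 := hdiff t
    linarith
  have h9 : (((Fintype.piFinset fun _ : Fin k => J).filter fun t =>
        ε < ‖ex (V N) (fun v => G v * f fun l => x (t l) v) -
          ex (V N) G * ∫ z, f z ∂(Measure.pi fun l => μ (t l))‖).card : ℝ) ≤
      ∑ a, (((Fintype.piFinset fun _ : Fin k => J).filter fun t =>
        θ < ‖ex (V N) (fun v => G v * ∏ l, φ' a l (x (t l) v)) -
          ex (V N) G * ∏ l, ∫ z, φ' a l z ∂μ (t l)‖).card : ℝ) := by
    exact_mod_cast (Finset.card_le_card hsub).trans Finset.card_biUnion_le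
  have h10 := mul_le_mul_of_nonneg_right h9 (Nat.cast_nonneg (α := ℝ) J.card)
  rw [Finset.sum_mul] at h10
  refine h10.trans ((Finset.sum_le_sum fun a _ => hN a G hG).trans ?_)
  rw [Finset.sum_const, nsmul_eq_mul, Finset.card_univ, ← mul_assoc]

/-- **Tuples, with arbitrary other data.** -/
theorem tuples_allU [SecondCountableTopology Z] (k : ℕ)
    {Y : Type} [TopologicalSpace Y] [CompactSpace Y] [T2Space Y]
    {f : Y × (Fin k → Z) → ℂ} (hf : Continuous f) {ε : ℝ} (hε : 0 < ε) :
    ∃ C : ℝ, ∀ (P ι : Type) [DecidableEq ι] (V : ℕ → Finset P) (x : ι → P → Z)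
      (μ : ι → Measure Z) [∀ i, IsProbabilityMeasure (μ i)], PI V x μ →
      ∀ J : Finset ι, ∀ᶠ N in atTop, ∀ y : P → Y,
      (((Fintype.piFinset fun _ : Fin k => J).filter fun t =>
        ε < ‖ex (V N) (fun v => f (y v, fun l => x (t l) v)) -
          ex (V N) fun v => ∫ z, f (y v, z) ∂(Measure.pi fun l => μ (t l))‖).card : ℝ) *
        J.card ≤ C * (J.card : ℝ) ^ k := by
  classical
  obtain ⟨g, ⟨A, _, ψ, φ, hψ, hφ, hg⟩, hfg⟩ := sp2_dense hf (show 0 < ε / 4 by positivity)
  obtain ⟨M, hM1, hM⟩ := exists_bound hψ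
  have hM0 : 0 < M := by linarith
  have hMc : (M : ℂ) ≠ 0 := by exact_mod_cast hM0.ne'
  set n : ℝ := (Fintype.card A : ℝ) + 1 with hn
  have hn0 : 0 < n := by positivity
  set θ : ℝ := ε / (2 * n * M) with hθ
  have hθ0 : 0 < θ := by positivity
  have h0 := fun a => tuples_genU k (hφ a) hθ0
  choose C hC using h0
  refine ⟨∑ a, C a, fun P ι _ V x μ _ h J => ?_⟩
  have h2 := Filter.eventually_all.2 fun a => hC a P ι V x μ h J
  filter_upwards [h2] with N hN y
  set G : A → P → ℂ := fun a v => (M : ℂ)⁻¹ * ψ a (y v) with hGd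
  have hG : ∀ a v, ‖G a v‖ ≤ 1 := fun a v => by
    change ‖(M : ℂ)⁻¹ * ψ a (y v)‖ ≤ 1
    rw [norm_mul, norm_inv, Complex.norm_real, Real.norm_eq_abs, abs_of_pos hM0,
      inv_mul_le_iff₀ hM0, mul_one]
    exact hM a (y v)
  have hψG : ∀ a v, ψ a (y v) = (M : ℂ) * G a v := fun a v => by
    rw [hGd]
    field_simp
  have hdiff : ∀ t : Fin k → ι, ‖ex (V N) (fun v => f (y v, fun l => x (t l) v)) -
      ex (V N) (fun v => ∫ z, f (y v, z) ∂(Measure.pi fun l => μ (t l)))‖ ≤
      (∑ a, M * ‖ex (V N) (fun v => G a v * φ a fun l => x (t l) v) -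
        ex (V N) (G a) * ∫ z, φ a z ∂(Measure.pi fun l => μ (t l))‖) + ε / 2 := by
    intro t
    set π := Measure.pi fun l => μ (t l) with hπ
    have hint : ∀ F : (Fin k → Z) → ℂ, Continuous F → Integrable F π := fun F hF =>
      hF.integrable_of_hasCompactSupport (HasCompactSupport.of_compactSpace F)
    have e1 : ∀ v, ∫ z, g (y v, z) ∂π = ∑ a, (M : ℂ) * (G a v * ∫ z, φ a z ∂π) := by
      intro v
      simp only [hg]
      rw [integral_finsetSum _ fun a _ => (hint _ (hφ a)).const_mul _]
      refine Finset.sum_congr rfl fun a _ => ?_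
      rw [integral_const_mul, hψG, mul_assoc]
    have e2 : ex (V N) (fun v => f (y v, fun l => x (t l) v)) -
        ex (V N) (fun v => ∫ z, f (y v, z) ∂π) =
        (∑ a, (M : ℂ) * (ex (V N) (fun v => G a v * φ a fun l => x (t l) v) -
          ex (V N) (G a) * ∫ z, φ a z ∂π)) +
        ex (V N) fun v => (f (y v, fun l => x (t l) v) - g (y v, fun l => x (t l) v)) -
          ((∫ z, f (y v, z) ∂π) - ∫ z, g (y v, z) ∂π) := by
      have e3 : (∑ a, (M : ℂ) * (ex (V N) (fun v => G a v * φ a fun l => x (t l) v) -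
          ex (V N) (G a) * ∫ z, φ a z ∂π)) =
          ex (V N) fun v => g (y v, fun l => x (t l) v) - ∫ z, g (y v, z) ∂π := by
        have e4 : ∀ a, (M : ℂ) * (ex (V N) (fun v => G a v * φ a fun l => x (t l) v) -
            ex (V N) (G a) * ∫ z, φ a z ∂π) = ex (V N) fun v =>
            (M : ℂ) * (G a v * φ a (fun l => x (t l) v) - (∫ z, φ a z ∂π) * G a v) := by
          intro a
          have e5 : (ex (V N) fun v => G a v * φ a (fun l => x (t l) v) - (∫ z, φ a z ∂π) * G a v) =
              ex (V N) (fun v => G a v * φ a fun l => x (t l) v) -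
                (∫ z, φ a z ∂π) * ex (V N) (G a) := by
            rw [ex_sub (V N) (fun v => G a v * φ a fun l => x (t l) v)
              (fun v => (∫ z, φ a z ∂π) * G a v), ex_mul (V N) _ (G a)]
          rw [ex_mul (V N) _ (fun v => G a v * φ a (fun l => x (t l) v) -
            (∫ z, φ a z ∂π) * G a v), e5]
          ring
        rw [Finset.sum_congr rfl fun a _ => e4 a, ← ex_sum]
        congr 1
        funext v
        rw [e1, hg, ← Finset.sum_sub_distrib]
        refine Finset.sum_congr rfl fun a _ => ?_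
        rw [hψG]
        ring
      rw [e3, ← ex_sub, ← ex_add]
      congr 1
      funext v
      ring
    rw [e2]
    refine (norm_add_le _ _).trans (add_le_add ?_ ?_)
    · refine (norm_sum_le _ _).trans (Finset.sum_le_sum fun a _ => ?_)
      rw [norm_mul, Complex.norm_real, Real.norm_eq_abs, abs_of_pos hM0]
    · refine norm_ex_le _ (by positivity) fun v => ?_
      have hfc : Continuous fun z => f (y v, z) := hf.comp (by fun_prop)
      have hgc : Continuous fun z => g (y v, z) := by
        have : (fun z => g (y v, z)) = fun z => ∑ a, ψ a (y v) * φ a z := by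
          funext z
          rw [hg]
        rw [this]
        exact continuous_finsetSum _ fun a _ => continuous_const.mul (hφ a)
      have e3 : ‖(∫ z, f (y v, z) ∂π) - ∫ z, g (y v, z) ∂π‖ ≤ ε / 4 := by
        rw [← integral_sub (hint _ hfc) (hint _ hgc)]
        have := norm_integral_le_of_norm_le_const (μ := π) (C := ε / 4)
          (Filter.Eventually.of_forall fun z => hfg (y v, z))
        simpa using this
      refine (norm_sub_le _ _).trans ?_
      have := hfg (y v, fun l => x (t l) v)
      linarith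
  have hsub : ((Fintype.piFinset fun _ : Fin k => J).filter fun t =>
        ε < ‖ex (V N) (fun v => f (y v, fun l => x (t l) v)) -
          ex (V N) fun v => ∫ z, f (y v, z) ∂(Measure.pi fun l => μ (t l))‖) ⊆
      Finset.univ.biUnion fun a => (Fintype.piFinset fun _ : Fin k => J).filter fun t =>
        θ < ‖ex (V N) (fun v => G a v * φ a fun l => x (t l) v) -
          ex (V N) (G a) * ∫ z, φ a z ∂(Measure.pi fun l => μ (t l))‖ := by
    intro t ht
    obtain ⟨htJ, ht⟩ := Finset.mem_filter.1 ht
    rw [Finset.mem_biUnion]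
    by_contra hcon
    push Not at hcon
    have h3 : ∀ a, M * ‖ex (V N) (fun v => G a v * φ a fun l => x (t l) v) -
          ex (V N) (G a) * ∫ z, φ a z ∂(Measure.pi fun l => μ (t l))‖ ≤ M * θ := by
      intro a
      have h4 := hcon a (Finset.mem_univ a)
      rw [Finset.mem_filter, not_and] at h4
      exact mul_le_mul_of_nonneg_left (not_lt.1 (h4 htJ)) hM0.le
    have h5 := Finset.sum_le_sum fun a (_ : a ∈ Finset.univ) => h3 a
    rw [Finset.sum_const, nsmul_eq_mul, Finset.card_univ] at h5
    have h6 : M * θ = ε / (2 * n) := by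
      rw [hθ]
      field_simp
    have h7 : (Fintype.card A : ℝ) * (ε / (2 * n)) < ε / 2 := by
      have h8 : (Fintype.card A : ℝ) < n := by rw [hn]; linarith
      calc (Fintype.card A : ℝ) * (ε / (2 * n)) < n * (ε / (2 * n)) :=
            mul_lt_mul_of_pos_right h8 (by positivity)
        _ = ε / 2 := by field_simp
    rw [h6] at h5
    have h8 := hdiff t
    linarith
  have h9 : (((Fintype.piFinset fun _ : Fin k => J).filter fun t =>
        ε < ‖ex (V N) (fun v => f (y v, fun l => x (t l) v)) -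
          ex (V N) fun v => ∫ z, f (y v, z) ∂(Measure.pi fun l => μ (t l))‖).card : ℝ) ≤
      ∑ a, (((Fintype.piFinset fun _ : Fin k => J).filter fun t =>
        θ < ‖ex (V N) (fun v => G a v * φ a fun l => x (t l) v) -
          ex (V N) (G a) * ∫ z, φ a z ∂(Measure.pi fun l => μ (t l))‖).card : ℝ) := by
    exact_mod_cast (Finset.card_le_card hsub).trans Finset.card_biUnion_le
  have h10 := mul_le_mul_of_nonneg_right h9 (Nat.cast_nonneg (α := ℝ) J.card)
  rw [Finset.sum_mul] at h10
  refine h10.trans ((Finset.sum_le_sum fun a _ => hN a (G a) (hG a)).trans ?_)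
  rw [Finset.sum_mul]

end

end Pool.Agent.Q12.ST
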