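import Mathlib

set_option autoImplicit false

/-!
# Approximation by sums of products
-/

namespace Pool.Agent.Q12.ST

open Filter Topology ComplexConjugate

section

variable {ι : Type} [Fintype ι] {Z : ι → Type} [∀ i, TopologicalSpace (Z i)]

/-- sums of products of functions of one coordinate -/
def SP (f : (∀ i, Z i) → ℂ) : Prop :=
  ∃ (J : Type) (_ : Fintype J) (c : J → ℂ) (φ : J → ∀ i, Z i → ℂ),
    (∀ a i, Continuous (φ a i)) ∧ ∀ z, f z = ∑ a, c a * ∏ i, φ a i (z i)

theorem SP.add {f g : (∀ i, Z i) → ℂ} (hf : SP f) (hg : SP g) : SP fun z => f z + g z := by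
  obtain ⟨J, _, c, φ, h1, h2⟩ := hf
  obtain ⟨J', _, c', φ', h1', h2'⟩ := hg
  refine ⟨J ⊕ J', inferInstance, Sum.elim c c', Sum.elim φ φ', fun a i => ?_, fun z => ?_⟩
  · cases a with
    | inl a => exact h1 a i
    | inr a => exact h1' a i
  · beta_reduce
    rw [h2, h2', Fintype.sum_sum_type]
    rfl

theorem SP.mul {f g : (∀ i, Z i) → ℂ} (hf : SP f) (hg : SP g) : SP fun z => f z * g z := by
  obtain ⟨J, _, c, φ, h1, h2⟩ := hf
  obtain ⟨J', _, c', φ', h1', h2'⟩ := hg
  refine ⟨J × J', inferInstance, fun a => c a.1 * c' a.2, fun a i z => φ a.1 i z * φ' a.2 i z,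
    fun a i => (h1 _ _).mul (h1' _ _), fun z => ?_⟩
  beta_reduce
  rw [h2, h2', Finset.sum_mul_sum, Fintype.sum_prod_type]
  exact Finset.sum_congr rfl fun a _ => Finset.sum_congr rfl fun b _ => by
    rw [Finset.prod_mul_distrib]
    ring

theorem SP.conj {f : (∀ i, Z i) → ℂ} (hf : SP f) : SP fun z => conj (f z) := by
  obtain ⟨J, _, c, φ, h1, h2⟩ := hf
  refine ⟨J, inferInstance, fun a => starRingEnd ℂ (c a), fun a i z => starRingEnd ℂ (φ a i z),
    fun a i => Complex.continuous_conj.comp (h1 a i), fun z => ?_⟩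
  beta_reduce
  rw [h2, map_sum]
  exact Finset.sum_congr rfl fun a _ => by rw [map_mul, map_prod]

theorem SP.const (c : ℂ) : SP fun _ : (∀ i, Z i) => c :=
  ⟨Unit, inferInstance, fun _ => c, fun _ _ _ => 1, fun _ _ => continuous_const, fun z => by simp⟩

theorem SP.coord [DecidableEq ι] (i : ι) {φ : Z i → ℂ} (h : Continuous φ) :
    SP fun z : (∀ i, Z i) => φ (z i) := by
  refine ⟨Unit, inferInstance, fun _ => 1,
    fun _ j => if hj : j = i then fun z => φ (hj ▸ z) else fun _ => 1, fun _ j => ?_, fun z => ?_⟩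
  · by_cases hj : j = i
    · subst hj
      simpa using h
    · beta_reduce
      rw [dif_neg hj]
      exact continuous_const
  · beta_reduce
    rw [Fintype.sum_unique, one_mul, Finset.prod_eq_single i]
    · rw [dif_pos rfl]
    · intro j _ hj
      rw [dif_neg hj]
    · intro h
      exact absurd (Finset.mem_univ _) h

theorem SP.continuous {f : (∀ i, Z i) → ℂ} (hf : SP f) : Continuous f := by
  obtain ⟨J, _, c, φ, h1, h2⟩ := hf
  have : f = fun z => ∑ a, c a * ∏ i, φ a i (z i) := funext h2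
  rw [this]
  exact continuous_finsetSum _ fun a _ => continuous_const.mul
    (continuous_finsetProd _ fun i _ => (h1 a i).comp (continuous_apply i))

/-- the algebra of the sums of products -/
noncomputable def spAlg (Z : ι → Type) [∀ i, TopologicalSpace (Z i)] [CompactSpace (∀ i, Z i)] :
    StarSubalgebra ℂ C((∀ i, Z i), ℂ) where
  carrier := {f | SP fun z => f z}
  mul_mem' hf hg := SP.mul hf hg
  one_mem' := SP.const 1
  add_mem' hf hg := SP.add hf hg
  zero_mem' := SP.const 0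
  algebraMap_mem' c := SP.const c
  star_mem' hf := SP.conj hf

/-- **Density.** -/
theorem sp_dense [DecidableEq ι] [∀ i, CompactSpace (Z i)] [∀ i, T2Space (Z i)]
    {f : (∀ i, Z i) → ℂ} (hf : Continuous f) {ε : ℝ} (hε : 0 < ε) :
    ∃ g : (∀ i, Z i) → ℂ, SP g ∧ ∀ z, ‖f z - g z‖ ≤ ε := by
  have hsep : (spAlg Z).SeparatesPoints := by
    intro z z' hne
    obtain ⟨i, hi⟩ := Function.ne_iff.1 hne
    obtain ⟨φ, h0, h1, -⟩ := exists_continuous_zero_one_of_isClosed (isClosed_singleton (x := z i))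
      (isClosed_singleton (x := z' i)) (Set.disjoint_singleton.2 hi)
    have hc : Continuous fun z : Z i => ((φ z : ℝ) : ℂ) := Complex.continuous_ofReal.comp φ.continuous
    refine ⟨fun z => ((φ (z i) : ℝ) : ℂ), ⟨⟨fun z => ((φ (z i) : ℝ) : ℂ),
      hc.comp (continuous_apply i)⟩, SP.coord i hc, rfl⟩, ?_⟩
    have e0 : φ (z i) = 0 := h0 rfl
    have e1 : φ (z' i) = 1 := h1 rfl
    simp [e0, e1]
  have h := ContinuousMap.starSubalgebra_topologicalClosure_eq_top_of_separatesPoints (spAlg Z) hsep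
  have h2 : (⟨f, hf⟩ : C((∀ i, Z i), ℂ)) ∈ (spAlg Z).topologicalClosure := by
    rw [h]
    trivial
  have h3 : (⟨f, hf⟩ : C((∀ i, Z i), ℂ)) ∈ closure ((spAlg Z : Set C((∀ i, Z i), ℂ))) := h2
  obtain ⟨g, hg, hd⟩ := Metric.mem_closure_iff.1 h3 ε hε
  refine ⟨g, hg, fun z => ?_⟩
  have h4 := ContinuousMap.dist_apply_le_dist (f := ⟨f, hf⟩) (g := g) z
  rw [dist_eq_norm] at h4
  exact h4.trans hd.le

end

end Pool.Agent.Q12.ST
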