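import Pool.Agent.Q12.ST.Bes
import Pool.Agent.Q12.ST.SW

set_option autoImplicit false
set_option linter.unusedSectionVars false

/-!
# Pairwise independent families
-/

namespace Pool.Agent.Q12.ST

open Filter Topology ComplexConjugate MeasureTheory

section

variable {P ι Z : Type} [TopologicalSpace Z] [CompactSpace Z] [T2Space Z] [MeasurableSpace Z]
  [BorelSpace Z]

/-- pairwise independence -/
structure PI (V : ℕ → Finset P) (x : ι → P → Z) (μ : ι → Measure Z) : Prop where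
  ne : ∀ᶠ N in atTop, (V N).Nonempty
  one : ∀ (i : ι) (φ : Z → ℂ), Continuous φ →
    Tendsto (fun N => ex (V N) fun v => φ (x i v)) atTop (𝓝 (∫ z, φ z ∂μ i))
  two : ∀ i j : ι, i ≠ j → ∀ φ ψ : Z → ℂ, Continuous φ → Continuous ψ →
    Tendsto (fun N => ex (V N) fun v => φ (x i v) * ψ (x j v)) atTop
      (𝓝 ((∫ z, φ z ∂μ i) * ∫ z, ψ z ∂μ j))

variable {V : ℕ → Finset P} {x : ι → P → Z} {μ : ι → Measure Z} [∀ i, IsProbabilityMeasure (μ i)]

/-- the centered function -/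
noncomputable def uc (x : ι → P → Z) (μ : ι → Measure Z) (φ : ι → Z → ℂ) (i : ι) (v : P) : ℂ :=
  φ i (x i v) - ∫ z, φ i z ∂μ i

theorem norm_int_le {φ : Z → ℂ} (h : ∀ z, ‖φ z‖ ≤ 1) (i : ι) : ‖∫ z, φ z ∂μ i‖ ≤ 1 := by
  have := norm_integral_le_of_norm_le_const (μ := μ i) (C := 1) (Filter.Eventually.of_forall h)
  simpa using this

theorem gram_eq (φ : ι → Z → ℂ) (i j : ι) {s : Finset P} (hN : s.Nonempty) :
    (ex s fun v => uc x μ φ i v * conj (uc x μ φ j v)) =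
      (ex s fun v => φ i (x i v) * conj (φ j (x j v))) -
      (∫ z, φ i z ∂μ i) * (ex s fun v => conj (φ j (x j v))) -
      conj (∫ z, φ j z ∂μ j) * (ex s fun v => φ i (x i v)) +
      (∫ z, φ i z ∂μ i) * conj (∫ z, φ j z ∂μ j) := by
  have h1 : (ex s fun _ => (∫ z, φ i z ∂μ i) * conj (∫ z, φ j z ∂μ j)) =
      (∫ z, φ i z ∂μ i) * conj (∫ z, φ j z ∂μ j) := by
    unfold ex
    have : (s.card : ℂ) ≠ 0 := by exact_mod_cast hN.card_pos.ne'
    rw [Finset.sum_const, nsmul_eq_mul]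
    field_simp
  rw [← ex_mul, ← ex_mul, ← ex_sub, ← ex_sub, ← h1, ← ex_add]
  congr 1
  funext v
  unfold uc
  rw [map_sub]
  ring

theorem PI.gram (h : PI V x μ) {φ : ι → Z → ℂ} (hφ : ∀ i, Continuous (φ i)) (i j : ι) {c : ℂ}
    (hc : Tendsto (fun N => ex (V N) fun v => φ i (x i v) * conj (φ j (x j v))) atTop (𝓝 c)) :
    Tendsto (fun N => ex (V N) fun v => uc x μ φ i v * conj (uc x μ φ j v)) atTop
      (𝓝 (c - (∫ z, φ i z ∂μ i) * conj (∫ z, φ j z ∂μ j))) := by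
  have hφ' : Continuous fun z => conj (φ j z) := Complex.continuous_conj.comp (hφ j)
  have h2 := (h.one j (fun z => conj (φ j z)) hφ').const_mul (∫ z, φ i z ∂μ i)
  have h3 := (h.one i (φ i) (hφ i)).const_mul (conj (∫ z, φ j z ∂μ j))
  have h4 := ((hc.sub h2).sub h3).add (tendsto_const_nhds (x := (∫ z, φ i z ∂μ i) *
    conj (∫ z, φ j z ∂μ j)))
  have e0 : ∫ z, conj (φ j z) ∂μ j = conj (∫ z, φ j z ∂μ j) := integral_conj
  rw [e0] at h4
  have e1 : c - (∫ z, φ i z ∂μ i) * conj (∫ z, φ j z ∂μ j) -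
      conj (∫ z, φ j z ∂μ j) * (∫ z, φ i z ∂μ i) + (∫ z, φ i z ∂μ i) * conj (∫ z, φ j z ∂μ j) =
      c - (∫ z, φ i z ∂μ i) * conj (∫ z, φ j z ∂μ j) := by
    ring
  rw [e1] at h4
  refine h4.congr' ?_
  filter_upwards [h.ne] with N hN
  exact (gram_eq φ i j hN).symm

theorem PI.gram_ne (h : PI V x μ) {i j : ι} (hij : i ≠ j) {φ : ι → Z → ℂ}
    (hφ : ∀ i, Continuous (φ i)) :
    Tendsto (fun N => ex (V N) fun v => uc x μ φ i v * conj (uc x μ φ j v)) atTop (𝓝 0) := by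
  have hφ' : Continuous fun z => conj (φ j z) := Complex.continuous_conj.comp (hφ j)
  have h1 := h.gram hφ i j (h.two i j hij (φ i) (fun z => conj (φ j z)) (hφ i) hφ')
  have e0 : ∫ z, conj (φ j z) ∂μ j = conj (∫ z, φ j z ∂μ j) := integral_conj
  rw [e0, sub_self] at h1
  exact h1

theorem PI.gram_self (h : PI V x μ) (i : ι) {φ : ι → Z → ℂ} (hφ : ∀ i, Continuous (φ i))
    (h1 : ∀ i z, ‖φ i z‖ ≤ 1) {η : ℝ} (hη : 0 < η) :
    ∀ᶠ N in atTop, ‖ex (V N) fun v => uc x μ φ i v * conj (uc x μ φ i v)‖ ≤ 1 + η := by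
  have hφ' : Continuous fun z => φ i z * conj (φ i z) :=
    (hφ i).mul (Complex.continuous_conj.comp (hφ i))
  have h2 := h.gram hφ i i (h.one i (fun z => φ i z * conj (φ i z)) hφ')
  have e1 : ∫ z, φ i z * conj (φ i z) ∂μ i = ((∫ z, ‖φ i z‖ ^ 2 ∂μ i : ℝ) : ℂ) := by
    have h0 : ∫ z, ((‖φ i z‖ ^ 2 : ℝ) : ℂ) ∂μ i = ((∫ z, ‖φ i z‖ ^ 2 ∂μ i : ℝ) : ℂ) :=
      integral_ofReal
    rw [← h0]
    congr 1
    funext z
    rw [Complex.mul_conj, Complex.normSq_eq_norm_sq]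
  have e2 : (∫ z, φ i z ∂μ i) * conj (∫ z, φ i z ∂μ i) = ((‖∫ z, φ i z ∂μ i‖ ^ 2 : ℝ) : ℂ) := by
    rw [Complex.mul_conj, Complex.normSq_eq_norm_sq]
  rw [e1, e2, ← Complex.ofReal_sub] at h2
  set a : ℝ := (∫ z, ‖φ i z‖ ^ 2 ∂μ i) - ‖∫ z, φ i z ∂μ i‖ ^ 2 with ha
  have hI : ∫ z, ‖φ i z‖ ^ 2 ∂μ i ≤ 1 := by
    have h3 := norm_integral_le_of_norm_le_const (μ := μ i) (f := fun z => ‖φ i z‖ ^ 2) (C := 1)
      (Filter.Eventually.of_forall fun z => by
        rw [Real.norm_eq_abs, abs_of_nonneg (by positivity)]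
        exact pow_le_one₀ (norm_nonneg _) (h1 i z))
    rw [Real.norm_eq_abs] at h3
    have h4 := (le_abs_self _).trans h3
    simpa using h4
  -- the limit is nonnegative
  have h0 : 0 ≤ a := by
    refine ge_of_tendsto' (f := fun N => (ex (V N) fun v =>
      uc x μ φ i v * conj (uc x μ φ i v)).re) (x := atTop) ?_ fun N => ?_
    · exact (Complex.continuous_re.tendsto _).comp h2
    · unfold ex
      rw [← Complex.ofReal_natCast, div_eq_mul_inv, ← Complex.ofReal_inv, Complex.re_mul_ofReal,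
        Complex.re_sum]
      refine mul_nonneg (Finset.sum_nonneg fun v _ => ?_) (by positivity)
      rw [Complex.mul_conj, Complex.ofReal_re]
      exact Complex.normSq_nonneg _
  have h3 : ‖((a : ℝ) : ℂ)‖ < 1 + η := by
    rw [Complex.norm_real, Real.norm_eq_abs, abs_of_nonneg h0]
    have := sq_nonneg ‖∫ z, φ i z ∂μ i‖
    linarith
  filter_upwards [h2.norm.eventually_lt_const h3] with N hN
  exact hN.le

/-- **Bessel's inequality for a pairwise independent family**, uniformly in the function `F`. -/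
theorem PI.bessel (h : PI V x μ) (J : Finset ι) {φ : ι → Z → ℂ} (hφ : ∀ i, Continuous (φ i))
    (h1 : ∀ i z, ‖φ i z‖ ≤ 1) {η : ℝ} (hη : 0 < η) :
    ∀ᶠ N in atTop, ∀ F : P → ℂ, (∀ v, ‖F v‖ ≤ 1) →
      ∑ i ∈ J, ‖ex (V N) fun v => F v * uc x μ φ i v‖ ^ 2 ≤ 1 + η := by
  have h2 : ∀ i ∈ J, ∀ j ∈ J, ∀ᶠ N in atTop, i ≠ j →
      ‖ex (V N) fun v => uc x μ φ i v * conj (uc x μ φ j v)‖ ≤ η / 2 * (1 / (J.card + 1)) := by
    intro i _ j _
    by_cases hij : i = j
    · exact Filter.Eventually.of_forall fun N h => absurd hij h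
    · have h3 := (h.gram_ne hij hφ).norm
      rw [norm_zero] at h3
      filter_upwards [h3.eventually_lt_const (show (0 : ℝ) < η / 2 * (1 / (J.card + 1)) by
        positivity)] with N hN _
      exact hN.le
  have h3 : ∀ᶠ N in atTop, ∀ i ∈ J, ∀ j ∈ J, i ≠ j →
      ‖ex (V N) fun v => uc x μ φ i v * conj (uc x μ φ j v)‖ ≤ η / 2 * (1 / (J.card + 1)) := by
    rw [Filter.eventually_all_finset]
    intro i hi
    rw [Filter.eventually_all_finset]
    exact h2 i hi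
  have h4 : ∀ᶠ N in atTop, ∀ i ∈ J,
      ‖ex (V N) fun v => uc x μ φ i v * conj (uc x μ φ i v)‖ ≤ 1 + η / 2 := by
    rw [Filter.eventually_all_finset]
    exact fun i _ => h.gram_self i hφ h1 (by positivity)
  filter_upwards [h.ne, h3, h4] with N hN h5 h6 F hF
  refine (ST.bessel (V N) hN J (uc x μ φ) (A := 1 + η / 2) (δ := η / 2 * (1 / (J.card + 1)))
    (by positivity) (by positivity) h6 h5 F hF).trans ?_
  have h7 : (1 / ((J.card : ℝ) + 1)) * J.card ≤ 1 := by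
    rw [one_div, inv_mul_le_iff₀ (by positivity)]
    linarith
  nlinarith

/-- **The number of the members of a family which are correlated with a given function.** -/
theorem PI.card (h : PI V x μ) [DecidableEq ι] (J : Finset ι) {φ : ι → Z → ℂ}
    (hφ : ∀ i, Continuous (φ i)) (h1 : ∀ i z, ‖φ i z‖ ≤ 1) {ε : ℝ} (hε : 0 < ε) :
    ∀ᶠ N in atTop, ∀ F : P → ℂ, (∀ v, ‖F v‖ ≤ 1) →
      ((J.filter fun i => ε < ‖ex (V N) fun v => F v * uc x μ φ i v‖).card : ℝ) ≤ 2 / ε ^ 2 := by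
  filter_upwards [h.bessel J hφ h1 one_pos] with N hN F hF
  rw [le_div_iff₀ (by positivity)]
  refine le_trans ?_ ((hN F hF).trans (by norm_num))
  rw [← nsmul_eq_mul, ← Finset.sum_const]
  refine (Finset.sum_le_sum (g := fun i => ‖ex (V N) fun v => F v * uc x μ φ i v‖ ^ 2)
    fun i hi => ?_).trans
    (Finset.sum_le_sum_of_subset_of_nonneg (Finset.filter_subset _ _) fun _ _ _ => sq_nonneg _)
  exact pow_le_pow_left₀ hε.le (Finset.mem_filter.1 hi).2.le 2

end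

end Pool.Agent.Q12.ST
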