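import Mathlib

set_option autoImplicit false

/-!
# Approximation by sums of products, two factors
-/

namespace Pool.Agent.Q12.ST

open Filter Topology ComplexConjugate

section

variable {Y Z : Type} [TopologicalSpace Y] [TopologicalSpace Z]

/-- sums of products of functions of one coordinate -/
def SP2 (f : Y × Z → ℂ) : Prop :=
  ∃ (J : Type) (_ : Fintype J) (ψ : J → Y → ℂ) (φ : J → Z → ℂ),
    (∀ a, Continuous (ψ a)) ∧ (∀ a, Continuous (φ a)) ∧ ∀ p, f p = ∑ a, ψ a p.1 * φ a p.2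

theorem SP2.add {f g : Y × Z → ℂ} (hf : SP2 f) (hg : SP2 g) : SP2 fun z => f z + g z := by
  obtain ⟨J, _, ψ, φ, h1, h2, h3⟩ := hf
  obtain ⟨J', _, ψ', φ', h1', h2', h3'⟩ := hg
  refine ⟨J ⊕ J', inferInstance, Sum.elim ψ ψ', Sum.elim φ φ', fun a => ?_, fun a => ?_,
    fun z => ?_⟩
  · cases a with
    | inl a => exact h1 a
    | inr a => exact h1' a
  · cases a with
    | inl a => exact h2 a
    | inr a => exact h2' a
  · beta_reduce
    rw [h3, h3', Fintype.sum_sum_type]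
    rfl

theorem SP2.mul {f g : Y × Z → ℂ} (hf : SP2 f) (hg : SP2 g) : SP2 fun z => f z * g z := by
  obtain ⟨J, _, ψ, φ, h1, h2, h3⟩ := hf
  obtain ⟨J', _, ψ', φ', h1', h2', h3'⟩ := hg
  refine ⟨J × J', inferInstance, fun a y => ψ a.1 y * ψ' a.2 y, fun a z => φ a.1 z * φ' a.2 z,
    fun a => (h1 _).mul (h1' _), fun a => (h2 _).mul (h2' _), fun z => ?_⟩
  beta_reduce
  rw [h3, h3', Finset.sum_mul_sum, Fintype.sum_prod_type]
  exact Finset.sum_congr rfl fun a _ => Finset.sum_congr rfl fun b _ => by ring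

theorem SP2.conj {f : Y × Z → ℂ} (hf : SP2 f) : SP2 fun z => conj (f z) := by
  obtain ⟨J, _, ψ, φ, h1, h2, h3⟩ := hf
  refine ⟨J, inferInstance, fun a y => starRingEnd ℂ (ψ a y), fun a z => starRingEnd ℂ (φ a z),
    fun a => Complex.continuous_conj.comp (h1 a), fun a => Complex.continuous_conj.comp (h2 a),
    fun z => ?_⟩
  beta_reduce
  rw [h3, map_sum]
  exact Finset.sum_congr rfl fun a _ => by rw [map_mul]

theorem SP2.left {ψ : Y → ℂ} (h : Continuous ψ) : SP2 fun p : Y × Z => ψ p.1 :=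
  ⟨Unit, inferInstance, fun _ => ψ, fun _ _ => 1, fun _ => h, fun _ => continuous_const,
    fun z => by simp⟩

theorem SP2.right {φ : Z → ℂ} (h : Continuous φ) : SP2 fun p : Y × Z => φ p.2 :=
  ⟨Unit, inferInstance, fun _ _ => 1, fun _ => φ, fun _ => continuous_const, fun _ => h,
    fun z => by simp⟩

/-- the algebra of the sums of products -/
noncomputable def spAlg2 (Y Z : Type) [TopologicalSpace Y] [TopologicalSpace Z]
    [CompactSpace (Y × Z)] : StarSubalgebra ℂ C(Y × Z, ℂ) where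
  carrier := {f | SP2 fun z => f z}
  mul_mem' hf hg := SP2.mul hf hg
  one_mem' := SP2.left (ψ := fun _ => 1) continuous_const
  add_mem' hf hg := SP2.add hf hg
  zero_mem' := SP2.left (ψ := fun _ => 0) continuous_const
  algebraMap_mem' c := SP2.left (ψ := fun _ => c) continuous_const
  star_mem' hf := SP2.conj hf

/-- **Density.** -/
theorem sp2_dense [CompactSpace Y] [T2Space Y] [CompactSpace Z] [T2Space Z]
    {f : Y × Z → ℂ} (hf : Continuous f) {ε : ℝ} (hε : 0 < ε) :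
    ∃ g : Y × Z → ℂ, SP2 g ∧ ∀ z, ‖f z - g z‖ ≤ ε := by
  have hsep : (spAlg2 Y Z).SeparatesPoints := by
    intro z z' hne
    by_cases h1 : z.1 = z'.1
    · have h2 : z.2 ≠ z'.2 := fun h2 => hne (Prod.ext h1 h2)
      obtain ⟨φ, h0, h1, -⟩ := exists_continuous_zero_one_of_isClosed
        (isClosed_singleton (x := z.2)) (isClosed_singleton (x := z'.2))
        (Set.disjoint_singleton.2 h2)
      have hc : Continuous fun z : Z => ((φ z : ℝ) : ℂ) :=
        Complex.continuous_ofReal.comp φ.continuous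
      refine ⟨fun z => ((φ z.2 : ℝ) : ℂ), ⟨⟨fun z => ((φ z.2 : ℝ) : ℂ),
        hc.comp continuous_snd⟩, SP2.right hc, rfl⟩, ?_⟩
      have e0 : φ z.2 = 0 := h0 rfl
      have e1 : φ z'.2 = 1 := h1 rfl
      simp [e0, e1]
    · obtain ⟨φ, h0, h1, -⟩ := exists_continuous_zero_one_of_isClosed
        (isClosed_singleton (x := z.1)) (isClosed_singleton (x := z'.1))
        (Set.disjoint_singleton.2 h1)
      have hc : Continuous fun z : Y => ((φ z : ℝ) : ℂ) :=
        Complex.continuous_ofReal.comp φ.continuous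
      refine ⟨fun z => ((φ z.1 : ℝ) : ℂ), ⟨⟨fun z => ((φ z.1 : ℝ) : ℂ),
        hc.comp continuous_fst⟩, SP2.left hc, rfl⟩, ?_⟩
      have e0 : φ z.1 = 0 := h0 rfl
      have e1 : φ z'.1 = 1 := h1 rfl
      simp [e0, e1]
  have h := ContinuousMap.starSubalgebra_topologicalClosure_eq_top_of_separatesPoints
    (spAlg2 Y Z) hsep
  have h2 : (⟨f, hf⟩ : C(Y × Z, ℂ)) ∈ (spAlg2 Y Z).topologicalClosure := by
    rw [h]
    trivial
  have h3 : (⟨f, hf⟩ : C(Y × Z, ℂ)) ∈ closure ((spAlg2 Y Z : Set C(Y × Z, ℂ))) := h2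
  obtain ⟨g, hg, hd⟩ := Metric.mem_closure_iff.1 h3 ε hε
  refine ⟨g, hg, fun z => ?_⟩
  have h4 := ContinuousMap.dist_apply_le_dist (f := ⟨f, hf⟩) (g := g) z
  rw [dist_eq_norm] at h4
  exact h4.trans hd.le

/-- a common bound -/
theorem exists_bound {J X : Type} [Fintype J] [TopologicalSpace X] [CompactSpace X]
    {φ : J → X → ℂ} (h : ∀ a, Continuous (φ a)) : ∃ M : ℝ, 1 ≤ M ∧ ∀ a z, ‖φ a z‖ ≤ M := by
  have h1 : ∀ a, ∃ C, ∀ z, ‖φ a z‖ ≤ C := fun a => by
    obtain ⟨C, hC⟩ := (isCompact_univ (X := X)).exists_bound_of_continuousOn (h a).continuousOn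
    exact ⟨C, fun z => hC z (Set.mem_univ z)⟩
  choose C hC using h1
  refine ⟨1 + ∑ a, |C a|, by
    have := Finset.sum_nonneg fun a (_ : a ∈ Finset.univ) => abs_nonneg (C a)
    linarith, fun a z => ?_⟩
  have h2 := Finset.single_le_sum (f := fun a => |C a|) (fun a _ => abs_nonneg _)
    (Finset.mem_univ a)
  have h3 := (hC a z).trans (le_abs_self _)
  linarith

end

end Pool.Agent.Q12.ST
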