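import Pool.Agent.Q12.ST.Cyc
import Pool.Agent.W353.SP.Tate

/-!
# The spectral theorem for the defects of the Sato-Tate law
-/

set_option autoImplicit false
set_option linter.unusedSectionVars false

namespace Pool.Agent.Q12.ST.Des

open Complex Filter Topology NumberField IsDedekindDomain MeasureTheory
open Pool.Agent.W401.Cheb
open Pool.Agent.W540.BE (exists_isFrob)
open Pool.Agent.W353.L1 (avC RR zz)
open Pool.Agent.W353.AT (MRep Irr Sim IsArtin fixedDim)
open Pool.Agent.W353.SP (EN Bd Hs Mn mnN chebN exists_sub spectral bd_fixn bd_RR)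
open Pool.Agent.W353.NF (vx fixn fixn_le fixn_mul_ker fixn_conj act ker_act_open)
open Pool.Agent.Q11.ST (avg avg_EN BaseChange bdf)
open Pool.Agent.Q12.ST.Comp

section
variable {K : Type} [Field K] [NumberField K]
variable {G : Type} [Group G] [TopologicalSpace G] [IsTopologicalGroup G] [CompactSpace G]
  [MeasurableSpace G] [BorelSpace G] {μ : Measure G} [IsProbabilityMeasure μ]
  [μ.IsMulLeftInvariant] [μ.IsMulRightInvariant] {N : Subgroup (GK K)} [N.Normal]
  {p : G →* GK K ⧸ N}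

/-- the component of `x v` is the class of the Frobenius elements at `v`, for almost all `v` -/
def Compat (p : G →* GK K ⧸ N) (x : HeightOneSpectrum (𝓞 K) → G) : Prop :=
  ∃ S : Finset (HeightOneSpectrum (𝓞 K)), ∀ v, v ∉ S → ∀ σ : GK K, IsFrob v σ →
    ∃ δ : GK K ⧸ N, p (x v) = δ * QuotientGroup.mk σ * δ⁻¹

theorem integrable_of_cont {f : G → ℝ} (hf : Continuous f) : Integrable f μ := by
  obtain ⟨B, hB⟩ := bdf hf
  exact Integrable.of_bound hf.aestronglyMeasurable B (Filter.Eventually.of_forall fun g => by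
    rw [Real.norm_eq_abs]
    exact hB g)

/-- Chebotarev's theorem for the expected value -/
theorem cheb_expected (hN : IsOpen (N : Set (GK K))) (hp : Function.Surjective p)
    (hpo : IsOpen (p.ker : Set G)) (F : IntermediateField K (AlgebraicClosure K)) [NumberField F]
    {f : G → ℝ} (hf : Continuous f) (hcl : ∀ g h, f (h * g * h⁻¹) = f g)
    (σ : HeightOneSpectrum (𝓞 K) → GK K) (hσ : ∀ v, IsFrob v (σ v)) :
    Tendsto (fun n => EN K n fun v => cAvg μ p f (QuotientGroup.mk (σ v)) * fixn K F (σ v)) atTop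
      (𝓝 (expected μ p F f)) := by
  classical
  obtain ⟨W, hWn, hWo, hWN, hWF⟩ := common (fun _ : Unit => F) N hN
  have hfinW : Finite (GK K ⧸ W) := Subgroup.quotient_finite_of_isOpen W hWo
  have hfinN : Finite (GK K ⧸ N) := Subgroup.quotient_finite_of_isOpen N hN
  let _ : Fintype (GK K ⧸ W) := Fintype.ofFinite _
  let _ : Fintype (GK K ⧸ N) := Fintype.ofFinite _
  set q : GK K ⧸ W →* GK K ⧸ N := QuotientGroup.map W N (MonoidHom.id _) hWN with hq
  have hout : ∀ g : GK K, fixn K F (QuotientGroup.mk g : GK K ⧸ W).out = fixn K F g := by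
    intro g
    obtain ⟨w, hw⟩ := QuotientGroup.mk_out_eq_mul W g
    rw [hw, fixn_mul_ker K F g w ((MonoidHom.mem_ker).1 (hWF () w.2))]
  let ψ : GK K ⧸ W → ℂ := fun e => ((cAvg μ p f (q e) * fixn K F e.out : ℝ) : ℂ)
  have hψ : ∀ a g : GK K ⧸ W, ψ (g * a * g⁻¹) = ψ a := by
    intro a g
    obtain ⟨a, rfl⟩ := QuotientGroup.mk_surjective a
    obtain ⟨g, rfl⟩ := QuotientGroup.mk_surjective g
    change ((cAvg μ p f (q _) * fixn K F (QuotientGroup.mk (g * a * g⁻¹) : GK K ⧸ W).out : ℝ) : ℂ) =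
      ((cAvg μ p f (q _) * fixn K F (QuotientGroup.mk a : GK K ⧸ W).out : ℝ) : ℂ)
    rw [hout, hout, fixn_conj, map_mul, map_mul, map_inv, cAvg_conj μ hp hpo hcl]
  have hE := expected_eq (μ := μ) (p := p) hN hp hpo F W hWo hWN (hWF ())
    (integrable_of_cont hf) hcl
  have hav : avC W ψ = (expected μ p F f : ℂ) := by
    unfold avC
    rw [finsum_eq_sum_of_fintype, Nat.card_eq_fintype_card, hE]
    refine Eq.trans ?_ (Complex.ofReal_mul _ _).symm
    refine congrArg₂ (· * ·) ?_ ?_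
    · rw [Complex.ofReal_inv, Complex.ofReal_natCast]
    · refine Eq.trans ?_ (Complex.ofReal_sum _ _).symm
      exact Finset.sum_congr rfl fun e _ => rfl
  have h1 := chebN K W hWo ψ hψ _ hav σ hσ
  refine h1.congr fun n => ?_
  congr 1
  funext v
  change (((cAvg μ p f (q (QuotientGroup.mk (σ v))) *
    fixn K F (QuotientGroup.mk (σ v) : GK K ⧸ W).out : ℝ) : ℂ)).re = _
  rw [Complex.ofReal_re, hout]
  rfl

/-- linearity -/
theorem EN_add (n : ℕ) (g h : HeightOneSpectrum (𝓞 K) → ℝ) :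
    EN K n (fun v => g v + h v) = EN K n g + EN K n h := by
  unfold EN
  rw [Finset.sum_add_distrib, add_div]

/-- functions which agree almost everywhere -/
theorem EN_congr {g h : HeightOneSpectrum (𝓞 K) → ℝ} (hg : Bd g) (hh : Bd h)
    (S : Finset (HeightOneSpectrum (𝓞 K))) (hS : ∀ v, v ∉ S → g v = h v) :
    Tendsto (fun n => EN K n g - EN K n h) atTop (𝓝 0) := by
  have h1 := (mnN K).fin (fun v => g v + (-1) * h v) (hg.add ((Bd.const (-1)).mul hh))
    ((Set.Finite.subset S.finite_toSet) fun v hv => by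
      by_contra hcon
      exact hv (by rw [hS v hcon]; ring))
  refine h1.congr fun n => ?_
  rw [EN_add]
  have e := (mnN K).smul (-1) h n
  rw [e]
  ring

/-- **The spectral theorem.** -/
theorem spectrum_main (hN : IsOpen (N : Set (GK K))) (hp : Function.Surjective p)
    (hpo : IsOpen (p.ker : Set G)) {x : HeightOneSpectrum (𝓞 K) → G} (hx : Compat p x)
    {f : G → ℝ} (hf : Continuous f) (hcl : ∀ g h, f (h * g * h⁻¹) = f g) {s : ℝ} (hs : 0 ≤ s)
    (hosc : ∀ g h, p g = p h → |f g - f h| ≤ s)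
    (σ : HeightOneSpectrum (𝓞 K) → GK K) (hσ : ∀ v, IsFrob v (σ v)) {z : ℕ → ℕ}
    (hz : Tendsto z atTop atTop) :
    ∃ φ : ℕ → ℕ, StrictMono φ ∧
      ∃ (zF : IntermediateField K (AlgebraicClosure K) → ℝ) (zA : MRep (GK K) → ℝ),
      (∀ (F : IntermediateField K (AlgebraicClosure K)) [NumberField F]
        (y : HeightOneSpectrum (𝓞 F) → G), BaseChange x y →
        Tendsto (fun j => avg (fun w => f (y w)) (z (φ j)) - expected μ p F f) atTop
          (𝓝 (zF F))) ∧
      (∀ c, IsArtin c.2 → Tendsto (fun j => avg (fun v =>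
        (f (x v) - cAvg μ p f (QuotientGroup.mk (σ v))) * (c.2.character (σ v)⁻¹).re) (z (φ j)))
          atTop (𝓝 (zA c))) ∧
      (∀ S : Finset (MRep (GK K)), (∀ p ∈ S, Irr p) →
        (∀ p ∈ S, ∀ q ∈ S, p ≠ q → ¬ Sim p q) → ∑ p ∈ S, (zA p) ^ 2 ≤ s ^ 2) ∧
      (∀ (F : IntermediateField K (AlgebraicClosure K)) [NumberField F],
        ∃ S : Finset (MRep (GK K)), (∀ p ∈ S, Irr p) ∧
          (∀ p ∈ S, ∀ q ∈ S, p ≠ q → ¬ Sim p q) ∧
          (∀ x, Irr x → (∀ p ∈ S, ¬ Sim x p) → fixedDim x.2 F = 0) ∧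
          zF F = ∑ p ∈ S, zA p * fixedDim p.2 F) ∧
      (∀ c c', IsArtin c.2 → IsArtin c'.2 → Sim c c' → zA c = zA c') ∧
      (∀ (c : ℕ) (η : ℝ), 0 < η → ∃ M : IntermediateField K (AlgebraicClosure K),
        FiniteDimensional K M ∧ IsGalois K M ∧
        ∀ (F : IntermediateField K (AlgebraicClosure K)) [NumberField F],
          Module.finrank K F ≤ c → |zF F - zF (F ⊓ M)| < η) := by
  classical
  have hfinN : Finite (GK K ⧸ N) := Subgroup.quotient_finite_of_isOpen N hN
  let _ : Fintype (GK K ⧸ N) := Fintype.ofFinite _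
  obtain ⟨B, hB⟩ := bdf hf
  obtain ⟨S, hS⟩ := hx
  set T0 : HeightOneSpectrum (𝓞 K) → ℝ := fun v =>
    f (x v) - cAvg μ p f (QuotientGroup.mk (σ v)) with hT0
  set T : HeightOneSpectrum (𝓞 K) → ℝ := fun v => if |T0 v| ≤ s then T0 v else 0 with hT
  have hTs : ∀ v, |T v| ≤ s := by
    intro v
    rw [hT]
    simp only
    split_ifs with h
    · exact h
    · rw [abs_zero]
      exact hs
  have hagree : ∀ v, v ∉ S → T v = T0 v := by
    intro v hv
    obtain ⟨δ, hδ⟩ := hS v hv (σ v) (hσ v)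
    have h1 : |T0 v| ≤ s := by
      have h2 := cAvg_sub_le μ hp hpo (integrable_of_cont (μ := μ) hf) (s := s) (x v)
        fun h hh => hosc (x v) h hh.symm
      rw [hδ, cAvg_conj μ hp hpo hcl] at h2
      exact h2
    rw [hT]
    simp only
    rw [if_pos h1]
  -- bounds
  have hbc : Bd fun v : HeightOneSpectrum (𝓞 K) => cAvg μ p f (QuotientGroup.mk (σ v)) := by
    obtain ⟨C, hC⟩ := (Set.finite_range fun δ : GK K ⧸ N => |cAvg μ p f δ|).bddAbove
    exact ⟨C, fun v => hC ⟨QuotientGroup.mk (σ v), rfl⟩⟩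
  have hbT0 : Bd T0 := by
    have h1 := Bd.add (f := fun v => f (x v)) (g := fun v => -cAvg μ p f (QuotientGroup.mk (σ v)))
      ⟨B, fun v => hB _⟩ hbc.neg
    obtain ⟨C, hC⟩ := h1
    exact ⟨C, fun v => by
      have h3 := hC v
      change |f (x v) + -cAvg μ p f (QuotientGroup.mk (σ v))| ≤ C at h3
      rw [← sub_eq_add_neg] at h3
      exact h3⟩
  have hbT : Bd T := ⟨s, hTs⟩
  obtain ⟨φ, hφ, hconv⟩ := exists_sub (mnN K) σ hbT hz
  have hzφ : Tendsto (fun n => z (φ n)) atTop atTop := hz.comp hφ.tendsto_atTop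
  have hM' : Mn atTop fun n => EN K (z (φ n)) := (mnN K).comp hzφ
  obtain ⟨zF, zA, h1, h2, h3, h4, h5⟩ := spectral hM' hσ hs hTs hconv
  refine ⟨φ, hφ, zF, zA, ?_, ?_, h3, h4, ?_, h5⟩
  · intro F _ y hy
    have e1 := (avg_fix (F := F) hy hf hcl σ hσ).comp hzφ
    have e2 := (cheb_expected (μ := μ) (p := p) hN hp hpo F hf hcl σ hσ).comp hzφ
    have e3 := (EN_congr (g := fun v => T v * fixn K F (σ v))
      (h := fun v => T0 v * fixn K F (σ v))
      (hbT.mul (bd_fixn σ)) (hbT0.mul (bd_fixn σ)) S (fun v hv => by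
        rw [hagree v hv])).comp hzφ
    have e4 := (h1 F).2
    have e5 := ((e1.add (e2.sub_const (expected μ p F f))).sub e3).add e4
    rw [sub_self, add_zero, sub_zero, zero_add] at e5
    refine e5.congr fun j => ?_
    simp only [Function.comp_apply]
    have e6 : EN K (z (φ j)) (fun v => f (x v) * fixn K F (σ v)) =
        EN K (z (φ j)) (fun v => T0 v * fixn K F (σ v)) +
        EN K (z (φ j)) (fun v => cAvg μ p f (QuotientGroup.mk (σ v)) * fixn K F (σ v)) := by
      rw [← EN_add]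
      congr 1
      funext v
      rw [hT0]
      ring
    rw [e6]
    ring
  · intro c hc
    have hbd := bd_RR hc σ
    have eRR : ∀ v, RR c.2 0 σ v = (c.2.character (σ v)⁻¹).re := by
      intro v
      unfold RR zz
      rw [Complex.ofReal_zero, zero_mul, neg_zero, Complex.cpow_zero, mul_one]
    have e0 : (fun v => T0 v * RR c.2 0 σ v) = fun v =>
        (f (x v) - cAvg μ p f (QuotientGroup.mk (σ v))) * (c.2.character (σ v)⁻¹).re := by
      funext v
      rw [eRR]
    have hb0 : Bd fun v => T0 v * RR c.2 0 σ v := hbT0.mul hbd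
    have e1 := (avg_EN hb0).comp hzφ
    have e3 := (EN_congr (g := fun v => T v * RR c.2 0 σ v)
      (h := fun v => T0 v * RR c.2 0 σ v)
      (hbT.mul hbd) hb0 S (fun v hv => by
        rw [hagree v hv])).comp hzφ
    have e5 := (e1.sub e3).add (h2 c hc).2
    rw [sub_zero, zero_add] at e5
    rw [← e0]
    refine e5.congr fun j => ?_
    simp only [Function.comp_apply]
    ring
  · intro c c' hc hc' hcc
    refine (h2 c hc).unique (h2 c' hc') fun v => ?_
    rw [hcc.RR]

end

end Pool.Agent.Q12.ST.Des
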