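import Pool.Agent.Q12.ST.Ind
import Pool.Agent.Q12.ST.SW2

set_option autoImplicit false
set_option linter.unusedSectionVars false

/-!
# Tuples of members of pairwise independent families
-/

namespace Pool.Agent.Q12.ST

open Filter Topology ComplexConjugate MeasureTheory

section

variable {P ι Z : Type} [TopologicalSpace Z] [CompactSpace Z] [T2Space Z] [MeasurableSpace Z]
  [BorelSpace Z]
variable {V : ℕ → Finset P} {x : ι → P → Z} {μ : ι → Measure Z} [∀ i, IsProbabilityMeasure (μ i)]

theorem intgC {φ : Z → ℂ} (h : Continuous φ) (i : ι) : Integrable φ (μ i) :=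
  h.integrable_of_hasCompactSupport (HasCompactSupport.of_compactSpace φ)

/-- **One more member**, with arbitrary other data. -/
theorem PI.one_more (h : PI V x μ) [DecidableEq ι] {Y : Type} [TopologicalSpace Y]
    [CompactSpace Y] [T2Space Y] {f : Y × Z → ℂ} (hf : Continuous f) {ε : ℝ} (hε : 0 < ε) :
    ∃ C : ℝ, ∀ J : Finset ι, ∀ᶠ N in atTop, ∀ y : P → Y,
      ((J.filter fun i => ε < ‖ex (V N) (fun v => f (y v, x i v)) -
        ex (V N) fun v => ∫ z, f (y v, z) ∂μ i‖).card : ℝ) ≤ C := by
  classical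
  obtain ⟨g, ⟨A, _, ψ, φ, hψ, hφ, hg⟩, hfg⟩ := sp2_dense hf (show 0 < ε / 4 by positivity)
  obtain ⟨M, hM1, hM⟩ := exists_bound hψ
  obtain ⟨M', hM1', hM'⟩ := exists_bound hφ
  have hM0 : 0 < M := by linarith
  have hM0' : 0 < M' := by linarith
  set n : ℝ := (Fintype.card A : ℝ) + 1 with hn
  have hn0 : 0 < n := by positivity
  set θ : ℝ := ε / (2 * n * (M * M')) with hθ
  have hθ0 : 0 < θ := by positivity
  refine ⟨Fintype.card A * (2 / θ ^ 2), fun J => ?_⟩
  -- the normalized functions
  set φ' : A → ι → Z → ℂ := fun a _ z => (M' : ℂ)⁻¹ * φ a z with hφ'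
  have h1 : ∀ a, ∀ᶠ N in atTop, ∀ F : P → ℂ, (∀ v, ‖F v‖ ≤ 1) →
      ((J.filter fun i => θ < ‖ex (V N) fun v => F v * uc x μ (φ' a) i v‖).card : ℝ) ≤
        2 / θ ^ 2 := fun a =>
    h.card J (fun i => continuous_const.mul (hφ a)) (fun i z => by
      change ‖(M' : ℂ)⁻¹ * φ a z‖ ≤ 1
      rw [norm_mul, norm_inv, Complex.norm_real, Real.norm_eq_abs, abs_of_pos hM0',
        inv_mul_le_iff₀ hM0', mul_one]
      exact hM' a z) hθ0
  have h2 := Filter.eventually_all.2 h1
  filter_upwards [h2, h.ne] with N hN hne y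
  -- the difference
  have hdiff : ∀ i, ‖ex (V N) (fun v => f (y v, x i v)) - ex (V N) (fun v => ∫ z, f (y v, z) ∂μ i)‖ ≤
      (∑ a, ‖ex (V N) fun v => ψ a (y v) * (φ a (x i v) - ∫ z, φ a z ∂μ i)‖) + ε / 2 := by
    intro i
    have e1 : ∀ v, ∫ z, g (y v, z) ∂μ i = ∑ a, ψ a (y v) * ∫ z, φ a z ∂μ i := by
      intro v
      simp only [hg]
      rw [integral_finsetSum _ fun a _ => (intgC (hφ a) i).const_mul _]
      exact Finset.sum_congr rfl fun a _ => integral_const_mul _ _
    have e2 : ex (V N) (fun v => f (y v, x i v)) - ex (V N) (fun v => ∫ z, f (y v, z) ∂μ i) =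
        (∑ a, ex (V N) fun v => ψ a (y v) * (φ a (x i v) - ∫ z, φ a z ∂μ i)) +
        ex (V N) fun v => (f (y v, x i v) - g (y v, x i v)) -
          ((∫ z, f (y v, z) ∂μ i) - ∫ z, g (y v, z) ∂μ i) := by
      rw [← ex_sum, ← ex_sub, ← ex_add]
      congr 1
      funext v
      rw [e1, hg]
      simp only [mul_sub, Finset.sum_sub_distrib]
      ring
    rw [e2]
    refine (norm_add_le _ _).trans (add_le_add (norm_sum_le _ _) ?_)
    refine norm_ex_le _ (by positivity) fun v => ?_
    have hfc : Continuous fun z => f (y v, z) := hf.comp (by fun_prop)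
    have hgc : Continuous fun z => g (y v, z) := by
      have : (fun z => g (y v, z)) = fun z => ∑ a, ψ a (y v) * φ a z := by
        funext z
        rw [hg]
      rw [this]
      exact continuous_finsetSum _ fun a _ => continuous_const.mul (hφ a)
    have e3 : ‖(∫ z, f (y v, z) ∂μ i) - ∫ z, g (y v, z) ∂μ i‖ ≤ ε / 4 := by
      rw [← integral_sub (intgC hfc i) (intgC hgc i)]
      have := norm_integral_le_of_norm_le_const (μ := μ i) (C := ε / 4)
        (Filter.Eventually.of_forall fun z => hfg (y v, z))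
      simpa using this
    refine (norm_sub_le _ _).trans ?_
    have := hfg (y v, x i v)
    linarith
  -- the exceptional members
  have hsub : (J.filter fun i => ε < ‖ex (V N) (fun v => f (y v, x i v)) -
      ex (V N) fun v => ∫ z, f (y v, z) ∂μ i‖) ⊆
      Finset.univ.biUnion fun a => J.filter fun i => θ < ‖ex (V N) fun v =>
        ((M : ℂ)⁻¹ * ψ a (y v)) * uc x μ (φ' a) i v‖ := by
    intro i hi
    obtain ⟨hiJ, hi⟩ := Finset.mem_filter.1 hi
    rw [Finset.mem_biUnion]
    by_contra hcon
    push Not at hcon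
    have h3 : ∀ a, ‖ex (V N) fun v => ψ a (y v) * (φ a (x i v) - ∫ z, φ a z ∂μ i)‖ ≤
        M * M' * θ := by
      intro a
      have h4 := hcon a (Finset.mem_univ a)
      rw [Finset.mem_filter, not_and] at h4
      have h5 := not_lt.1 (h4 hiJ)
      have h6 : (ex (V N) fun v => ψ a (y v) * (φ a (x i v) - ∫ z, φ a z ∂μ i)) =
          ((M : ℂ) * M') * ex (V N) fun v => ((M : ℂ)⁻¹ * ψ a (y v)) * uc x μ (φ' a) i v := by
        rw [← ex_mul]
        congr 1
        funext v
        unfold uc
        rw [hφ']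
        simp only
        rw [integral_const_mul]
        have hMc : (M : ℂ) ≠ 0 := by exact_mod_cast hM0.ne'
        have hMc' : (M' : ℂ) ≠ 0 := by exact_mod_cast hM0'.ne'
        field_simp
      rw [h6, norm_mul, norm_mul, Complex.norm_real, Complex.norm_real, Real.norm_eq_abs,
        Real.norm_eq_abs, abs_of_pos hM0, abs_of_pos hM0']
      exact mul_le_mul_of_nonneg_left h5 (by positivity)
    have h4 := hdiff i
    have h5 := Finset.sum_le_sum fun a (_ : a ∈ Finset.univ) => h3 a
    rw [Finset.sum_const, nsmul_eq_mul, Finset.card_univ] at h5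
    have h6 : M * M' * θ = ε / (2 * n) := by
      rw [hθ]
      field_simp
    have h7 : (Fintype.card A : ℝ) * (ε / (2 * n)) ≤ ε / 2 := by
      have h8 : (Fintype.card A : ℝ) ≤ n := by rw [hn]; linarith
      calc (Fintype.card A : ℝ) * (ε / (2 * n)) ≤ n * (ε / (2 * n)) :=
            mul_le_mul_of_nonneg_right h8 (by positivity)
        _ = ε / 2 := by field_simp
    rw [h6] at h5
    linarith
  refine le_trans (Nat.cast_le.2 (Finset.card_le_card hsub)) ?_
  refine le_trans (Nat.cast_le.2 Finset.card_biUnion_le) ?_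
  rw [Nat.cast_sum]
  refine (Finset.sum_le_sum fun a _ => hN a (fun v => (M : ℂ)⁻¹ * ψ a (y v)) fun v => ?_).trans ?_
  · rw [norm_mul, norm_inv, Complex.norm_real, Real.norm_eq_abs, abs_of_pos hM0,
      inv_mul_le_iff₀ hM0, mul_one]
    exact hM a (y v)
  · rw [Finset.sum_const, nsmul_eq_mul, Finset.card_univ]

/-- products of numbers of absolute value at most one -/
theorem prod_norm_le {k : ℕ} {s : Finset (Fin k)} {a : Fin k → ℂ} (h : ∀ l, ‖a l‖ ≤ 1) :
    ‖∏ l ∈ s, a l‖ ≤ 1 := by
  rw [norm_prod]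
  exact Finset.prod_le_one (fun _ _ => norm_nonneg _) fun l _ => h l

/-- the telescoping identity -/
theorem telescope {k : ℕ} (a m : Fin k → ℂ) : ∏ l, a l - ∏ l, m l =
    ∑ l, ((∏ j ∈ Finset.univ.filter (· < l), m j) *
      ∏ j ∈ Finset.univ.filter (l < ·), a j) * (a l - m l) := by
  have h := Finset.prod_sub_ordered Finset.univ a fun l => a l - m l
  simp only [sub_sub_cancel] at h
  rw [h]
  rw [sub_sub_cancel]
  exact Finset.sum_congr rfl fun l _ => by ring

/-- **Tuples**, for products of functions of absolute value at most one. -/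
theorem PI.tuples (h : PI V x μ) [DecidableEq ι] (k : ℕ) {φ : Fin k → Z → ℂ}
    (hφ : ∀ l, Continuous (φ l)) (h1 : ∀ l z, ‖φ l z‖ ≤ 1) {ε : ℝ} (hε : 0 < ε) (J : Finset ι) :
    ∀ᶠ N in atTop, (((Fintype.piFinset fun _ : Fin k => J).filter fun t =>
      ε < ‖ex (V N) (fun v => ∏ l, φ l (x (t l) v)) - ∏ l, ∫ z, φ l z ∂μ (t l)‖).card : ℝ) *
        J.card ≤ (2 * k ^ 3 / ε ^ 2) * (J.card : ℝ) ^ k := by
  classical
  rcases Nat.eq_zero_or_pos k with rfl | hk
  · filter_upwards [h.ne] with N hN
    have e : ((Fintype.piFinset fun _ : Fin 0 => J).filter fun t =>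
      ε < ‖ex (V N) (fun v => ∏ l, φ l (x (t l) v)) - ∏ l, ∫ z, φ l z ∂μ (t l)‖) = ∅ := by
      rw [Finset.filter_eq_empty_iff]
      intro t _
      have e1 : (ex (V N) fun v => ∏ l, φ l (x (t l) v)) = 1 := by
        unfold ex
        have : ((V N).card : ℂ) ≠ 0 := by exact_mod_cast hN.card_pos.ne'
        simp [this]
      rw [e1]
      simp [hε.le]
    rw [e]
    simp
  set θ : ℝ := ε / k with hθ
  have hk0 : (0 : ℝ) < k := by exact_mod_cast hk
  have hθ0 : 0 < θ := by positivity
  have h2 : ∀ l, ∀ᶠ N in atTop, ∀ F : P → ℂ, (∀ v, ‖F v‖ ≤ 1) →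
      ((J.filter fun i => θ < ‖ex (V N) fun v => F v * uc x μ (fun _ => φ l) i v‖).card : ℝ) ≤
        2 / θ ^ 2 := fun l => h.card J (fun _ => hφ l) (fun _ => h1 l) hθ0
  have h3 := Filter.eventually_all.2 h2
  filter_upwards [h3, h.ne] with N hN hne
  -- the terms
  set F : Fin k → (Fin k → ι) → P → ℂ := fun l t v =>
    (∏ j ∈ Finset.univ.filter (· < l), ∫ z, φ j z ∂μ (t j)) *
      ∏ j ∈ Finset.univ.filter (l < ·), φ j (x (t j) v) with hF
  have hF1 : ∀ l t v, ‖F l t v‖ ≤ 1 := by
    intro l t v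
    rw [hF, norm_mul]
    exact mul_le_one₀ (prod_norm_le fun j => norm_int_le (h1 j) _) (norm_nonneg _)
      (prod_norm_le fun j => h1 j _)
  have hFu : ∀ l t i v, F l (Function.update t l i) v = F l t v := by
    intro l t i v
    rw [hF]
    simp only
    congr 1
    · refine Finset.prod_congr rfl fun j hj => ?_
      rw [Function.update_of_ne (ne_of_lt (Finset.mem_filter.1 hj).2)]
    · refine Finset.prod_congr rfl fun j hj => ?_
      rw [Function.update_of_ne (ne_of_gt (Finset.mem_filter.1 hj).2)]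
  set T : Finset (Fin k → ι) := (Fintype.piFinset fun _ : Fin k => J).filter fun t =>
      ε < ‖ex (V N) (fun v => ∏ l, φ l (x (t l) v)) - ∏ l, ∫ z, φ l z ∂μ (t l)‖ with hT
  set Tl : Fin k → Finset (Fin k → ι) := fun l => (Fintype.piFinset fun _ : Fin k => J).filter
    fun t => θ < ‖ex (V N) fun v => F l t v * uc x μ (fun _ => φ l) (t l) v‖ with hTl
  have hsub : T ⊆ Finset.univ.biUnion Tl := by
    intro t ht
    obtain ⟨htJ, ht⟩ := Finset.mem_filter.1 ht
    rw [Finset.mem_biUnion]
    by_contra hcon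
    push Not at hcon
    have h4 : ∀ l, ‖ex (V N) fun v => F l t v * uc x μ (fun _ => φ l) (t l) v‖ ≤ θ := by
      intro l
      have h5 := hcon l (Finset.mem_univ l)
      rw [hTl, Finset.mem_filter, not_and] at h5
      exact not_lt.1 (h5 htJ)
    have e1 : (ex (V N) (fun v => ∏ l, φ l (x (t l) v)) - ∏ l, ∫ z, φ l z ∂μ (t l)) =
        ∑ l, ex (V N) fun v => F l t v * uc x μ (fun _ => φ l) (t l) v := by
      have e2 : (ex (V N) fun _ => ∏ l, ∫ z, φ l z ∂μ (t l)) = ∏ l, ∫ z, φ l z ∂μ (t l) := by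
        unfold ex
        have : ((V N).card : ℂ) ≠ 0 := by exact_mod_cast hne.card_pos.ne'
        rw [Finset.sum_const, nsmul_eq_mul]
        field_simp
      rw [← e2, ← ex_sub, ← ex_sum]
      congr 1
      funext v
      exact telescope (fun l => φ l (x (t l) v)) fun l => ∫ z, φ l z ∂μ (t l)
    rw [e1] at ht
    have h5 := (norm_sum_le Finset.univ fun l => ex (V N) fun v =>
      F l t v * uc x μ (fun _ => φ l) (t l) v).trans (Finset.sum_le_sum fun l _ => h4 l)
    rw [Finset.sum_const, nsmul_eq_mul, Finset.card_univ, Fintype.card_fin] at h5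
    have h6 : (k : ℝ) * θ = ε := by
      rw [hθ]
      field_simp
    linarith
  -- the number of the elements of `Tl l`
  have hcard : ∀ l, ((Tl l).card : ℝ) * J.card ≤ (J.card : ℝ) ^ k * (2 / θ ^ 2) := by
    intro l
    have e1 : (Tl l ×ˢ J).card ≤ ∑ s ∈ Fintype.piFinset fun _ : Fin k => J,
        (J.filter fun i => Function.update s l i ∈ Tl l).card := by
      rw [← Finset.card_sigma]
      refine Finset.card_le_card_of_injOn (fun p => ⟨Function.update p.1 l p.2, p.1 l⟩) ?_ ?_
      · intro p hp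
        obtain ⟨hp1, hp2⟩ := Finset.mem_product.1 (Finset.mem_coe.1 hp)
        have hp3 := (Finset.mem_filter.1 hp1).1
        rw [Fintype.mem_piFinset] at hp3
        rw [Finset.mem_coe, Finset.mem_sigma]
        refine ⟨?_, ?_⟩
        · rw [Fintype.mem_piFinset]
          intro j
          by_cases hj : j = l
          · subst hj
            simpa using hp2
          · simpa [Function.update_of_ne hj] using hp3 j
        · rw [Finset.mem_filter]
          refine ⟨hp3 l, ?_⟩
          simpa using hp1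
      · intro p _ q _ hpq
        simp only [Sigma.mk.injEq, heq_eq_eq] at hpq
        obtain ⟨h5, h6⟩ := hpq
        have h7 : p.2 = q.2 := by
          have := congrFun h5 l
          simpa using this
        have h8 : p.1 = q.1 := by
          funext j
          by_cases hj : j = l
          · rw [hj, h6]
          · have := congrFun h5 j
            simpa [Function.update_of_ne hj] using this
        exact Prod.ext h8 h7
    have e2 : ∀ s, ((J.filter fun i => Function.update s l i ∈ Tl l).card : ℝ) ≤ 2 / θ ^ 2 := by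
      intro s
      refine le_trans ?_ (hN l (F l s) (hF1 l s))
      refine Nat.cast_le.2 (Finset.card_le_card fun i hi => ?_)
      obtain ⟨h5, h6⟩ := Finset.mem_filter.1 hi
      refine Finset.mem_filter.2 ⟨h5, ?_⟩
      have h7 := (Finset.mem_filter.1 h6).2
      simp only [hFu, Function.update_self] at h7
      exact h7
    rw [Finset.card_product] at e1
    have e3 : ((Tl l).card : ℝ) * J.card ≤ ∑ s ∈ Fintype.piFinset fun _ : Fin k => J,
        ((J.filter fun i => Function.update s l i ∈ Tl l).card : ℝ) := by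
      exact_mod_cast e1
    refine e3.trans ((Finset.sum_le_sum fun s _ => e2 s).trans ?_)
    rw [Finset.sum_const, nsmul_eq_mul, Fintype.card_piFinset]
    simp
  have h6 : (T.card : ℝ) ≤ ∑ l, ((Tl l).card : ℝ) := by
    have := (Finset.card_le_card hsub).trans Finset.card_biUnion_le
    exact_mod_cast this
  have h7 := mul_le_mul_of_nonneg_right h6 (Nat.cast_nonneg (α := ℝ) J.card)
  rw [Finset.sum_mul] at h7
  refine h7.trans ((Finset.sum_le_sum fun l _ => hcard l).trans ?_)
  rw [Finset.sum_const, nsmul_eq_mul, Finset.card_univ, Fintype.card_fin]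
  refine le_of_eq ?_
  rw [hθ]
  field_simp

end

end Pool.Agent.Q12.ST
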