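import Pool.Agent.Q12.ST.Gen

set_option autoImplicit false
set_option linter.unusedSectionVars false

/-!
# Tuples of members of pairwise independent families, with arbitrary other data
-/

namespace Pool.Agent.Q12.ST

open Filter Topology ComplexConjugate MeasureTheory

section

variable {P ι Z : Type} [TopologicalSpace Z] [CompactSpace Z] [T2Space Z] [MeasurableSpace Z]
  [BorelSpace Z]
variable {V : ℕ → Finset P} {x : ι → P → Z} {μ : ι → Measure Z} [∀ i, IsProbabilityMeasure (μ i)]

/-- **Tuples**, for products of functions of absolute value at most one. -/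
theorem PI.tuplesF (h : PI V x μ) [DecidableEq ι] (k : ℕ) {φ : Fin k → Z → ℂ}
    (hφ : ∀ l, Continuous (φ l)) (h1 : ∀ l z, ‖φ l z‖ ≤ 1) {ε : ℝ} (hε : 0 < ε) (J : Finset ι) :
    ∀ᶠ N in atTop, ∀ G : P → ℂ, (∀ v, ‖G v‖ ≤ 1) →
      (((Fintype.piFinset fun _ : Fin k => J).filter fun t =>
      ε < ‖ex (V N) (fun v => G v * ∏ l, φ l (x (t l) v)) -
        ex (V N) G * ∏ l, ∫ z, φ l z ∂μ (t l)‖).card : ℝ) *
        J.card ≤ (2 * k ^ 3 / ε ^ 2) * (J.card : ℝ) ^ k := by
  classical
  rcases Nat.eq_zero_or_pos k with rfl | hk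
  · filter_upwards with N G hG
    have e : ((Fintype.piFinset fun _ : Fin 0 => J).filter fun t =>
      ε < ‖ex (V N) (fun v => G v * ∏ l, φ l (x (t l) v)) -
        ex (V N) G * ∏ l, ∫ z, φ l z ∂μ (t l)‖) = ∅ := by
      rw [Finset.filter_eq_empty_iff]
      intro t _
      simp [hε.le]
    rw [e]
    simp
  set θ : ℝ := ε / k with hθ
  have hk0 : (0 : ℝ) < k := by exact_mod_cast hk
  have hθ0 : 0 < θ := by positivity
  have h2 : ∀ l, ∀ᶠ N in atTop, ∀ F : P → ℂ, (∀ v, ‖F v‖ ≤ 1) →
      ((J.filter fun i => θ < ‖ex (V N) fun v => F v * uc x μ (fun _ => φ l) i v‖).card : ℝ) ≤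
        2 / θ ^ 2 := fun l => h.card J (fun _ => hφ l) (fun _ => h1 l) hθ0
  have h3 := Filter.eventually_all.2 h2
  filter_upwards [h3] with N hN G hG
  -- the terms
  set F : Fin k → (Fin k → ι) → P → ℂ := fun l t v => G v *
    ((∏ j ∈ Finset.univ.filter (· < l), ∫ z, φ j z ∂μ (t j)) *
      ∏ j ∈ Finset.univ.filter (l < ·), φ j (x (t j) v)) with hF
  have hF1 : ∀ l t v, ‖F l t v‖ ≤ 1 := by
    intro l t v
    rw [hF, norm_mul, norm_mul]
    exact mul_le_one₀ (hG v) (by positivity)
      (mul_le_one₀ (prod_norm_le fun j => norm_int_le (h1 j) _) (norm_nonneg _)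
      (prod_norm_le fun j => h1 j _))
  have hFu : ∀ l t i v, F l (Function.update t l i) v = F l t v := by
    intro l t i v
    rw [hF]
    simp only
    congr 2
    · refine Finset.prod_congr rfl fun j hj => ?_
      rw [Function.update_of_ne (ne_of_lt (Finset.mem_filter.1 hj).2)]
    · refine Finset.prod_congr rfl fun j hj => ?_
      rw [Function.update_of_ne (ne_of_gt (Finset.mem_filter.1 hj).2)]
  set T : Finset (Fin k → ι) := (Fintype.piFinset fun _ : Fin k => J).filter fun t =>
      ε < ‖ex (V N) (fun v => G v * ∏ l, φ l (x (t l) v)) -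
        ex (V N) G * ∏ l, ∫ z, φ l z ∂μ (t l)‖ with hT
  set Tl : Fin k → Finset (Fin k → ι) := fun l => (Fintype.piFinset fun _ : Fin k => J).filter
    fun t => θ < ‖ex (V N) fun v => F l t v * uc x μ (fun _ => φ l) (t l) v‖ with hTl
  have hsub : T ⊆ Finset.univ.biUnion Tl := by
    intro t ht
    obtain ⟨htJ, ht⟩ := Finset.mem_filter.1 ht
    rw [Finset.mem_biUnion]
    by_contra hcon
    push Not at hcon
    have h4 : ∀ l, ‖ex (V N) fun v => F l t v * uc x μ (fun _ => φ l) (t l) v‖ ≤ θ := by
      intro l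
      have h5 := hcon l (Finset.mem_univ l)
      rw [hTl, Finset.mem_filter, not_and] at h5
      exact not_lt.1 (h5 htJ)
    have e1 : (ex (V N) (fun v => G v * ∏ l, φ l (x (t l) v)) -
        ex (V N) G * ∏ l, ∫ z, φ l z ∂μ (t l)) =
        ∑ l, ex (V N) fun v => F l t v * uc x μ (fun _ => φ l) (t l) v := by
      rw [mul_comm (ex (V N) G), ← ex_mul, ← ex_sub, ← ex_sum]
      congr 1
      funext v
      have h6 := telescope (fun l => φ l (x (t l) v)) fun l => ∫ z, φ l z ∂μ (t l)
      have h7 : G v * ∏ l, φ l (x (t l) v) - (∏ l, ∫ z, φ l z ∂μ (t l)) * G v =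
          G v * (∏ l, φ l (x (t l) v) - ∏ l, ∫ z, φ l z ∂μ (t l)) := by ring
      rw [h7, h6, Finset.mul_sum]
      refine Finset.sum_congr rfl fun l _ => ?_
      rw [hF]
      simp only
      unfold uc
      ring
    rw [e1] at ht
    have h5 := (norm_sum_le Finset.univ fun l => ex (V N) fun v =>
      F l t v * uc x μ (fun _ => φ l) (t l) v).trans (Finset.sum_le_sum fun l _ => h4 l)
    rw [Finset.sum_const, nsmul_eq_mul, Finset.card_univ, Fintype.card_fin] at h5
    have h6 : (k : ℝ) * θ = ε := by
      rw [hθ]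
      field_simp
    linarith
  -- the number of the elements of `Tl l`
  have hcard : ∀ l, ((Tl l).card : ℝ) * J.card ≤ (J.card : ℝ) ^ k * (2 / θ ^ 2) := by
    intro l
    have e1 : (Tl l ×ˢ J).card ≤ ∑ s ∈ Fintype.piFinset fun _ : Fin k => J,
        (J.filter fun i => Function.update s l i ∈ Tl l).card := by
      rw [← Finset.card_sigma]
      refine Finset.card_le_card_of_injOn (fun p => ⟨Function.update p.1 l p.2, p.1 l⟩) ?_ ?_
      · intro p hp
        obtain ⟨hp1, hp2⟩ := Finset.mem_product.1 (Finset.mem_coe.1 hp)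
        have hp3 := (Finset.mem_filter.1 hp1).1
        rw [Fintype.mem_piFinset] at hp3
        rw [Finset.mem_coe, Finset.mem_sigma]
        refine ⟨?_, ?_⟩
        · rw [Fintype.mem_piFinset]
          intro j
          by_cases hj : j = l
          · subst hj
            simpa using hp2
          · simpa [Function.update_of_ne hj] using hp3 j
        · rw [Finset.mem_filter]
          refine ⟨hp3 l, ?_⟩
          simpa using hp1
      · intro p _ q _ hpq
        simp only [Sigma.mk.injEq, heq_eq_eq] at hpq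
        obtain ⟨h5, h6⟩ := hpq
        have h7 : p.2 = q.2 := by
          have := congrFun h5 l
          simpa using this
        have h8 : p.1 = q.1 := by
          funext j
          by_cases hj : j = l
          · rw [hj, h6]
          · have := congrFun h5 j
            simpa [Function.update_of_ne hj] using this
        exact Prod.ext h8 h7
    have e2 : ∀ s, ((J.filter fun i => Function.update s l i ∈ Tl l).card : ℝ) ≤ 2 / θ ^ 2 := by
      intro s
      refine le_trans ?_ (hN l (F l s) (hF1 l s))
      refine Nat.cast_le.2 (Finset.card_le_card fun i hi => ?_)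
      obtain ⟨h5, h6⟩ := Finset.mem_filter.1 hi
      refine Finset.mem_filter.2 ⟨h5, ?_⟩
      have h7 := (Finset.mem_filter.1 h6).2
      simp only [hFu, Function.update_self] at h7
      exact h7
    rw [Finset.card_product] at e1
    have e3 : ((Tl l).card : ℝ) * J.card ≤ ∑ s ∈ Fintype.piFinset fun _ : Fin k => J,
        ((J.filter fun i => Function.update s l i ∈ Tl l).card : ℝ) := by
      exact_mod_cast e1
    refine e3.trans ((Finset.sum_le_sum fun s _ => e2 s).trans ?_)
    rw [Finset.sum_const, nsmul_eq_mul, Fintype.card_piFinset]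
    simp
  have h6 : (T.card : ℝ) ≤ ∑ l, ((Tl l).card : ℝ) := by
    have := (Finset.card_le_card hsub).trans Finset.card_biUnion_le
    exact_mod_cast this
  have h7 := mul_le_mul_of_nonneg_right h6 (Nat.cast_nonneg (α := ℝ) J.card)
  rw [Finset.sum_mul] at h7
  refine h7.trans ((Finset.sum_le_sum fun l _ => hcard l).trans ?_)
  rw [Finset.sum_const, nsmul_eq_mul, Finset.card_univ, Fintype.card_fin]
  refine le_of_eq ?_
  rw [hθ]
  field_simp

end

end Pool.Agent.Q12.ST
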